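import Pool.Agent.Helper957.TB.Twist

set_option autoImplicit false

namespace Pool.Agent.Helper957.TB.Tree

open Set Filter Topology BoundedContinuousFunction

/-- finite sums of code indicators -/
noncomputable def fs (F : Finset Dt) (a : Dt → ℝ) : Y := ∑ d ∈ F, a d • eD d

theorem eP_nd_fs (F : Finset Dt) (a : Dt → ℝ) (s : Node) : eP (.nd s) (fs F a) = 0 := by
  unfold fs
  rw [map_sum]
  apply Finset.sum_eq_zero
  intro d _
  rw [eP_smul, eP_nd_eD, mul_zero]

theorem eP_ct_fs (F : Finset Dt) (a : Dt → ℝ) {d : Dt} (hd : d ∈ F) :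
    eP (.ct d) (fs F a) = a d := by
  classical
  unfold fs
  rw [map_sum, Finset.sum_eq_single d]
  · rw [eP_smul, eP_ct_eD, if_pos rfl, mul_one]
  · intro d' _ hne
    rw [eP_smul, eP_ct_eD, if_neg hne.symm, mul_zero]
  · intro h; exact absurd hd h

theorem eP_ct_fs_not (F : Finset Dt) (a : Dt → ℝ) {d : Dt} (hd : d ∉ F) :
    eP (.ct d) (fs F a) = 0 := by
  classical
  unfold fs
  rw [map_sum]
  apply Finset.sum_eq_zero
  intro d' hd'
  rw [eP_smul, eP_ct_eD, if_neg (fun h : d = d' => hd (h ▸ hd')), mul_zero]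

theorem norm_chiT_le (u : Node) : ‖chiT u‖ ≤ 1 := by
  classical
  apply normY_le zero_le_one
  intro z
  cases z with
  | nd s => rw [eP_nd_chiT]; split_ifs <;> simp
  | ct d => rw [eP_ct_chiT]; split_ifs <;> simp

theorem meet_glb (t u : Node) : ∃ v, v ≤ t ∧ v ≤ u ∧ (∀ w, w ≤ t → w ≤ u → w ≤ v) ∧
    ((AA t ∩ AA u) \ AA v).Finite := by
  obtain ⟨v, h1, h2, h3⟩ := exists_meet t u
  refine ⟨v, h1, h2, ?_, h3⟩
  intro w hw1 hw2
  by_contra hcon
  have hvw : v < w := by
    rcases comparable hw1 h1 with h | h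
    · exact absurd h hcon
    · exact lt_of_le_not_ge h hcon
  apply AA_diff_infinite hvw
  apply (((AA_mono hw1).union (AA_mono hw2)).union h3).subset
  rintro d ⟨hd1, hd2⟩
  by_cases ha : d ∈ AA t
  · by_cases hb : d ∈ AA u
    · exact Or.inr ⟨⟨ha, hb⟩, hd2⟩
    · exact Or.inl (Or.inr ⟨hd1, hb⟩)
  · exact Or.inl (Or.inl ⟨hd1, ha⟩)

theorem sum_apply_BT {ι : Type*} (F : Finset ι) (f : ι → BT) (z : Pt) :
    (∑ i ∈ F, f i) z = ∑ i ∈ F, f i z := by
  classical
  induction F using Finset.induction_on with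
  | empty => simp
  | insert a s ha ih => rw [Finset.sum_insert ha, Finset.sum_insert ha]; exact congrArg _ ih

theorem gen_mul {f g : BT} (hf : f ∈ genT) (hg : g ∈ genT) :
    f * g ∈ Submodule.span ℝ genT := by
  classical
  have key1 : ∀ (t : Node) (e : Dt), chiTB t * eDB e ∈ Submodule.span ℝ genT := by
    intro t e
    by_cases h : e ∈ AA t
    · have : chiTB t * eDB e = eDB e := by
        ext z
        show fT t z * fD e z = fD e z
        cases z with
        | nd s => simp [fD]
        | ct d =>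
          simp only [fT, fD]
          by_cases h1 : d = e
          · subst h1; simp [h]
          · simp [h1]
      rw [this]
      exact Submodule.subset_span (Or.inr ⟨e, rfl⟩)
    · have : chiTB t * eDB e = 0 := by
        ext z
        show fT t z * fD e z = 0
        cases z with
        | nd s => simp [fD]
        | ct d =>
          simp only [fT, fD]
          by_cases h1 : d = e
          · subst h1; simp [h]
          · simp [h1]
      rw [this]
      exact Submodule.zero_mem _
  rcases hf with ⟨t, rfl⟩ | ⟨d, rfl⟩ <;> rcases hg with ⟨u, rfl⟩ | ⟨e, rfl⟩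
  · obtain ⟨v, h1, h2, h3, h4⟩ := meet_glb t u
    have hfin : (((AA t ∩ AA u) \ AA v) ∪ ((AA v \ AA t) ∪ (AA v \ AA u))).Finite :=
      h4.union ((AA_mono h1).union (AA_mono h2))
    set G := hfin.toFinset with hG
    have hmemG : ∀ d, d ∈ G ↔ d ∈ ((AA t ∩ AA u) \ AA v) ∪ ((AA v \ AA t) ∪ (AA v \ AA u)) :=
      fun d => Set.Finite.mem_toFinset hfin
    have : chiTB t * chiTB u = chiTB v +
        ∑ d ∈ G, ((if d ∈ AA t ∧ d ∈ AA u then (1 : ℝ) else 0) - (if d ∈ AA v then 1 else 0)) •
          eDB d := by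
      ext z
      show fT t z * fT u z = fT v z + (∑ d ∈ G, ((if d ∈ AA t ∧ d ∈ AA u then (1 : ℝ) else 0) -
        (if d ∈ AA v then 1 else 0)) • eDB d) z
      rw [sum_apply_BT]
      cases z with
      | nd s =>
        have h0 : ∑ d ∈ G, (((if d ∈ AA t ∧ d ∈ AA u then (1 : ℝ) else 0) -
            (if d ∈ AA v then 1 else 0)) • eDB d) (Pt.nd s) = 0 := by
          apply Finset.sum_eq_zero
          intro d _
          show _ * fD d (Pt.nd s) = 0
          simp [fD]
        rw [h0, add_zero]
        simp only [fT]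
        by_cases hs1 : s ≤ t
        · by_cases hs2 : s ≤ u
          · simp [hs1, hs2, h3 s hs1 hs2]
          · have : ¬ s ≤ v := fun h => hs2 (h.trans h2)
            simp [hs2, this]
        · have : ¬ s ≤ v := fun h => hs1 (h.trans h1)
          simp [hs1, this]
      | ct d =>
        have h0 : ∑ e ∈ G, (((if e ∈ AA t ∧ e ∈ AA u then (1 : ℝ) else 0) -
            (if e ∈ AA v then 1 else 0)) • eDB e) (Pt.ct d) =
            if d ∈ G then ((if d ∈ AA t ∧ d ∈ AA u then (1 : ℝ) else 0) -
            (if d ∈ AA v then 1 else 0)) else 0 := by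
          rw [← Finset.sum_ite_eq G d (fun e => ((if e ∈ AA t ∧ e ∈ AA u then (1 : ℝ) else 0) -
            (if e ∈ AA v then 1 else 0)))]
          apply Finset.sum_congr rfl
          intro e _
          show _ * fD e (Pt.ct d) = _
          simp only [fD]
          split_ifs <;> simp
        rw [h0]
        simp only [fT]
        by_cases hdG : d ∈ G
        · rw [if_pos hdG]
          by_cases a1 : d ∈ AA t <;> by_cases a2 : d ∈ AA u <;> by_cases a3 : d ∈ AA v <;>
            simp [a1, a2, a3]
        · rw [if_neg hdG, add_zero]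
          rw [hmemG] at hdG
          by_cases a1 : d ∈ AA t <;> by_cases a2 : d ∈ AA u <;> by_cases a3 : d ∈ AA v
          · simp [a1, a2, a3]
          · exact absurd (Or.inl ⟨⟨a1, a2⟩, a3⟩) hdG
          · exact absurd (Or.inr (Or.inr ⟨a3, a2⟩)) hdG
          · simp [a2, a3]
          · exact absurd (Or.inr (Or.inl ⟨a3, a1⟩)) hdG
          · simp [a1, a3]
          · exact absurd (Or.inr (Or.inl ⟨a3, a1⟩)) hdG
          · simp [a1, a3]
    rw [this]
    apply Submodule.add_mem
    · exact Submodule.subset_span (Or.inl ⟨v, rfl⟩)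
    · apply Submodule.sum_mem
      intro d _
      exact Submodule.smul_mem _ _ (Submodule.subset_span (Or.inr ⟨d, rfl⟩))
  · exact key1 t e
  · rw [mul_comm]; exact key1 u d
  · by_cases h : d = e
    · subst h
      have : eDB d * eDB d = eDB d := by
        ext z
        show fD d z * fD d z = fD d z
        cases z with
        | nd s => simp [fD]
        | ct d' => simp only [fD]; split_ifs <;> simp
      rw [this]
      exact Submodule.subset_span (Or.inr ⟨d, rfl⟩)
    · have : eDB d * eDB e = 0 := by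
        ext z
        show fD d z * fD e z = 0
        cases z with
        | nd s => simp [fD]
        | ct d' =>
          simp only [fD]
          by_cases h1 : d' = d
          · subst h1; simp [h]
          · simp [h1]
      rw [this]
      exact Submodule.zero_mem _

theorem span_mul {f g : BT} (hf : f ∈ Submodule.span ℝ genT) (hg : g ∈ Submodule.span ℝ genT) :
    f * g ∈ Submodule.span ℝ genT := by
  induction hf using Submodule.span_induction with
  | mem x hx =>
    induction hg using Submodule.span_induction with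
    | mem y hy => exact gen_mul hx hy
    | zero => rw [mul_zero]; exact Submodule.zero_mem _
    | add y z _ _ h1 h2 => rw [mul_add]; exact Submodule.add_mem _ h1 h2
    | smul c y _ h1 => rw [mul_smul_comm]; exact Submodule.smul_mem _ _ h1
  | zero => rw [zero_mul]; exact Submodule.zero_mem _
  | add y z _ _ h1 h2 => rw [add_mul]; exact Submodule.add_mem _ h1 h2
  | smul c y _ h1 => rw [smul_mul_assoc]; exact Submodule.smul_mem _ _ h1

theorem YS_mul {f g : BT} (hf : f ∈ YS) (hg : g ∈ YS) : f * g ∈ YS := by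
  have hf' : f ∈ closure ((Submodule.span ℝ genT : Submodule ℝ BT) : Set BT) := hf
  have hg' : g ∈ closure ((Submodule.span ℝ genT : Submodule ℝ BT) : Set BT) := hg
  show f * g ∈ closure ((Submodule.span ℝ genT : Submodule ℝ BT) : Set BT)
  exact map_mem_closure₂ continuous_mul hf' hg' (fun a ha b hb => span_mul ha hb)

/-- product in the space -/
noncomputable def mulY (x y : Y) : Y := ⟨x.1 * y.1, YS_mul x.2 y.2⟩

theorem eP_mulY (z : Pt) (x y : Y) : eP z (mulY x y) = eP z x * eP z y := rfl

theorem eP_neg (z : Pt) (f : Y) : eP z (-f) = - eP z f := map_neg _ _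

/-- zero at nodes not below `u` -/
def InX (u : Node) (y : Y) : Prop := ∀ t, ¬ t ≤ u → eP (.nd t) y = 0

/-- zero at nodes not comparable with `u` -/
def InW (u : Node) (y : Y) : Prop := ∀ t, ¬ t ≤ u → ¬ u ≤ t → eP (.nd t) y = 0

/-- agreement below `s` and on `F` -/
def Agr (s : Node) (F : Finset Dt) (x y : Y) : Prop :=
  (∀ t, t ≤ s → eP (.nd t) y = eP (.nd t) x) ∧ ∀ d ∈ F, eP (.ct d) y = eP (.ct d) x

theorem InX.inW {u : Node} {y : Y} (h : InX u y) : InW u y := fun t h1 _ => h t h1

theorem InX.mono {u v : Node} {y : Y} (h : InX u y) (huv : u ≤ v) : InX v y :=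
  fun t h1 => h t fun h2 => h1 (h2.trans huv)

theorem InW.mono {u v : Node} {y : Y} (h : InW v y) (huv : u ≤ v) : InW u y := by
  intro t h1 h2
  apply h t
  · intro h3
    rcases comparable h3 huv with h4 | h4
    · exact h1 h4
    · exact h2 h4
  · intro h3
    exact h2 (huv.trans h3)

theorem InX.inW_of_le {u v : Node} {y : Y} (h : InX v y) (huv : u ≤ v) : InW u y :=
  h.inW.mono huv

theorem InX.add {u : Node} {x y : Y} (hx : InX u x) (hy : InX u y) : InX u (x + y) := by
  intro t ht
  rw [eP_add, hx t ht, hy t ht, add_zero]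

theorem InX.smul {u : Node} {x : Y} (hx : InX u x) (c : ℝ) : InX u (c • x) := by
  intro t ht
  rw [eP_smul, hx t ht, mul_zero]

theorem InW.add {u : Node} {x y : Y} (hx : InW u x) (hy : InW u y) : InW u (x + y) := by
  intro t ht ht'
  rw [eP_add, hx t ht ht', hy t ht ht', add_zero]

theorem InW.sub {u : Node} {x y : Y} (hx : InW u x) (hy : InW u y) : InW u (x - y) := by
  intro t ht ht'
  rw [eP_sub, hx t ht ht', hy t ht ht', sub_zero]

theorem InW.smul {u : Node} {x : Y} (hx : InW u x) (c : ℝ) : InW u (c • x) := by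
  intro t ht ht'
  rw [eP_smul, hx t ht ht', mul_zero]

theorem finite_big (z : Y) {ρ η : ℝ} (hρ : 0 ≤ ρ) (hη : 0 < η) (h : ∀ t, |eP (.nd t) z| ≤ ρ) :
    {d | ρ + η < |eP (.ct d) z|}.Finite := by
  obtain ⟨E, hE, h1⟩ := near_node z z hη
  apply hE.subset
  intro d hd
  by_contra hcon
  rcases h1 d hcon with ⟨s, hs, -⟩ | ⟨hs, -⟩
  · have h2 := h s
    have h3 : |eP (.ct d) z| ≤ |eP (.nd s) z| + η := by
      have := abs_sub_abs_le_abs_sub (eP (.ct d) z) (eP (.nd s) z)
      linarith
    have h4 : ρ + η < |eP (.ct d) z| := hd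
    linarith
  · have h4 : ρ + η < |eP (.ct d) z| := hd
    linarith

theorem trunc (z : Y) (c : ℝ) {s u : Node} (hsu : s ≤ u) (F : Finset Dt) {ρ η : ℝ}
    (hρ : 0 ≤ ρ) (hη : 0 < η) (h1 : ∀ t, t ≤ s → |eP (.nd t) z| ≤ ρ)
    (h2 : ∀ d ∈ F, |eP (.ct d) z| ≤ ρ) (h3 : |c| ≤ ρ) :
    ∃ k : Y, InX u k ∧ (∀ t, t ≤ s → eP (.nd t) k = eP (.nd t) z) ∧
      (∀ d ∈ F, eP (.ct d) k = eP (.ct d) z) ∧ (∀ t, s < t → t ≤ u → eP (.nd t) k = c) ∧
      ‖k‖ ≤ ρ + η := by
  classical
  set w : Y := mulY (chiT s) z + c • (chiT u - mulY (chiT u) (chiT s)) with hw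
  have w1 : ∀ t, t ≤ s → eP (.nd t) w = eP (.nd t) z := by
    intro t ht
    rw [hw, eP_add, eP_smul, eP_sub, eP_mulY, eP_mulY, eP_nd_chiT, eP_nd_chiT,
      if_pos ht, if_pos (ht.trans hsu)]
    ring
  have w2 : ∀ t, s < t → t ≤ u → eP (.nd t) w = c := by
    intro t ht htu
    rw [hw, eP_add, eP_smul, eP_sub, eP_mulY, eP_mulY, eP_nd_chiT, eP_nd_chiT,
      if_neg (not_le_of_gt ht), if_pos htu]
    ring
  have w3 : ∀ t, ¬ t ≤ u → eP (.nd t) w = 0 := by
    intro t ht
    rw [hw, eP_add, eP_smul, eP_sub, eP_mulY, eP_mulY, eP_nd_chiT, eP_nd_chiT,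
      if_neg (fun h => ht (h.trans hsu)), if_neg ht]
    ring
  have w4 : ∀ t, |eP (.nd t) w| ≤ ρ := by
    intro t
    by_cases ht : t ≤ u
    · by_cases hts : t ≤ s
      · rw [w1 t hts]; exact h1 t hts
      · have : s < t := by
          rcases comparable ht hsu with h | h
          · exact absurd h hts
          · exact lt_of_le_not_ge h hts
        rw [w2 t this ht]; exact h3
    · rw [w3 t ht]; simpa using hρ
  have hfin := finite_big w hρ hη w4
  set G := hfin.toFinset with hG
  have hmemG : ∀ d, d ∈ G ↔ ρ + η < |eP (.ct d) w| := fun d => Set.Finite.mem_toFinset hfin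
  set a : Dt → ℝ := fun d => if d ∈ F then eP (.ct d) z - eP (.ct d) w else - eP (.ct d) w with ha
  refine ⟨w + fs (F ∪ G) a, ?_, ?_, ?_, ?_, ?_⟩
  · intro t ht
    rw [eP_add, eP_nd_fs, add_zero, w3 t ht]
  · intro t ht
    rw [eP_add, eP_nd_fs, add_zero, w1 t ht]
  · intro d hd
    rw [eP_add, eP_ct_fs _ _ (Finset.mem_union_left _ hd), ha]
    simp only [if_pos hd]
    ring
  · intro t ht htu
    rw [eP_add, eP_nd_fs, add_zero, w2 t ht htu]
  · apply normY_le (by linarith)
    intro q
    cases q with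
    | nd t =>
      rw [eP_add, eP_nd_fs, add_zero]
      exact (w4 t).trans (by linarith)
    | ct d =>
      by_cases hdF : d ∈ F
      · rw [eP_add, eP_ct_fs _ _ (Finset.mem_union_left _ hdF), ha]
        simp only [if_pos hdF]
        have := h2 d hdF
        have h5 : eP (.ct d) w + (eP (.ct d) z - eP (.ct d) w) = eP (.ct d) z := by ring
        rw [h5]
        linarith
      · by_cases hdG : d ∈ G
        · rw [eP_add, eP_ct_fs _ _ (Finset.mem_union_right _ hdG), ha]
          simp only [if_neg hdF]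
          rw [add_neg_cancel, abs_zero]
          linarith
        · rw [eP_add, eP_ct_fs_not _ _ (fun h => (Finset.mem_union.1 h).elim hdF hdG), add_zero]
          rw [hmemG] at hdG
          exact not_lt.1 hdG

end Pool.Agent.Helper957.TB.Tree
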