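import Pool.Agent.Helper957.TB.GA

set_option autoImplicit false

namespace Pool.Agent.Helper957.TB.Tree

open Set Filter Topology BoundedContinuousFunction

/-- agreement below `s` and on `F`, constant between `s` and `u` -/
def CE (s u : Node) (x : Y) (F : Finset Dt) (y : Y) : Prop :=
  Agr s F x y ∧ ∀ t, s < t → t ≤ u → eP (.nd t) y = eP (.nd s) x

def Adm (s u : Node) (x : Y) (F : Finset Dt) (y : Y) : Prop := InW u y ∧ CE s u x F y

/-- the stable cost of the data is at most `A` -/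
def Le (p : Seminorm ℝ Y) (s : Node) (x : Y) (F : Finset Dt) (A : ℝ) : Prop :=
  ∀ u, s ≤ u → ∀ A', A < A' → ∃ y, Adm s u x F y ∧ p y ≤ A'

/-- the cost of raising the data to the value `R` is at most `A` -/
def KLe (p : Seminorm ℝ Y) (s : Node) (x : Y) (F : Finset Dt) (R A : ℝ) : Prop :=
  ∀ A', A < A' → ∃ u, s < u ∧ ∃ y, Agr s F x y ∧ eP (.nd u) y = R ∧ Le p u y F A'

variable {p : Seminorm ℝ Y} {C : ℝ}

theorem Agr.refl (s : Node) (F : Finset Dt) (x : Y) : Agr s F x x :=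
  ⟨fun _ _ => rfl, fun _ _ => rfl⟩

theorem Agr.symm {s : Node} {F : Finset Dt} {x y : Y} (h : Agr s F x y) : Agr s F y x :=
  ⟨fun t ht => (h.1 t ht).symm, fun d hd => (h.2 d hd).symm⟩

theorem Agr.trans {s : Node} {F : Finset Dt} {x y z : Y} (h : Agr s F x y) (h' : Agr s F y z) :
    Agr s F x z :=
  ⟨fun t ht => (h'.1 t ht).trans (h.1 t ht), fun d hd => (h'.2 d hd).trans (h.2 d hd)⟩

theorem Agr.mono {s s' : Node} {F F' : Finset Dt} {x y : Y} (h : Agr s' F' x y) (hs : s ≤ s')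
    (hF : F ⊆ F') : Agr s F x y :=
  ⟨fun t ht => h.1 t (ht.trans hs), fun d hd => h.2 d (hF hd)⟩

theorem CE.congr {s u : Node} {x x' y : Y} {F : Finset Dt} (h : CE s u x F y)
    (hx : Agr s F x x') : CE s u x' F y :=
  ⟨hx.symm.trans h.1, fun t h1 h2 => (h.2 t h1 h2).trans (hx.1 s le_rfl).symm⟩

theorem CE.top {s u : Node} {x y : Y} {F : Finset Dt} (h : CE s u x F y) (hsu : s ≤ u) :
    eP (.nd u) y = eP (.nd s) x := by
  rcases hsu.eq_or_lt with h1 | h1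
  · subst h1; exact h.1.1 s le_rfl
  · exact h.2 u h1 le_rfl

theorem CE.restrict {s u v : Node} {x y : Y} {F : Finset Dt} (h : CE s v x F y) (huv : u ≤ v) :
    CE s u x F y := ⟨h.1, fun t h1 h2 => h.2 t h1 (h2.trans huv)⟩

theorem CE.weaken {s u : Node} {x y : Y} {F F' : Finset Dt} (h : CE s u x F y) (hF : F' ⊆ F) :
    CE s u x F' y := ⟨h.1.mono le_rfl hF, h.2⟩

/-- composing extensions -/
theorem CE.shift {s u v : Node} {x x' y : Y} {F : Finset Dt} (hsu : s ≤ u) (huv : u ≤ v)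
    (h : CE s v x F y) (h' : CE s u x F x') : CE u v x' F y := by
  refine ⟨⟨?_, ?_⟩, ?_⟩
  · intro t ht
    rcases comparable ht hsu with h1 | h1
    · rw [h.1.1 t h1, h'.1.1 t h1]
    · rcases h1.eq_or_lt with h2 | h2
      · subst h2; rw [h.1.1 _ le_rfl, h'.1.1 _ le_rfl]
      · rw [h.2 t h2 (ht.trans huv), h'.2 t h2 ht]
  · intro d hd
    rw [h.1.2 d hd, h'.1.2 d hd]
  · intro t h1 h2
    rw [h'.top hsu]
    exact h.2 t (hsu.trans_lt h1) h2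

theorem exists_CE {s u : Node} (hsu : s ≤ u) (x : Y) (F : Finset Dt) :
    ∃ y, InX u y ∧ CE s u x F y ∧ ‖y‖ ≤ ‖x‖ + 1 := by
  obtain ⟨k, h1, h2, h3, h4, h5⟩ := trunc x (eP (.nd s) x) hsu F (norm_nonneg x) one_pos
    (fun t _ => abs_eP_le _ _) (fun d _ => abs_eP_le _ _) (abs_eP_le _ _)
  exact ⟨k, h1, ⟨⟨h2, h3⟩, h4⟩, h5⟩

theorem Le.mono {s : Node} {x : Y} {F F' : Finset Dt} {A B : ℝ} (h : Le p s x F A) (hAB : A ≤ B)
    (hF : F' ⊆ F) : Le p s x F' B := by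
  intro u hu A' hA'
  obtain ⟨y, hy, hpy⟩ := h u hu A' (hAB.trans_lt hA')
  exact ⟨y, ⟨hy.1, hy.2.weaken hF⟩, hpy⟩

theorem Le.congr {s : Node} {x x' : Y} {F : Finset Dt} {A : ℝ} (h : Le p s x F A)
    (hx : Agr s F x x') : Le p s x' F A := by
  intro u hu A' hA'
  obtain ⟨y, hy, hpy⟩ := h u hu A' hA'
  exact ⟨y, ⟨hy.1, hy.2.congr hx⟩, hpy⟩

theorem Le.ce {s u : Node} {x x' : Y} {F : Finset Dt} {A : ℝ} (h : Le p s x F A) (hsu : s ≤ u)
    (hx : CE s u x F x') : Le p u x' F A := by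
  intro v hv A' hA'
  obtain ⟨y, hy, hpy⟩ := h v (hsu.trans hv) A' hA'
  exact ⟨y, ⟨hy.1, hy.2.shift hsu hv hx⟩, hpy⟩

theorem Le.nonneg {s : Node} {x : Y} {F : Finset Dt} {A : ℝ} (h : Le p s x F A) : 0 ≤ A := by
  apply le_of_forall_gt_imp_ge_of_dense
  intro A' hA'
  obtain ⟨y, -, hpy⟩ := h s le_rfl A' hA'
  exact (apply_nonneg p y).trans hpy

theorem Le_of_norm (hp : ∀ x, p x ≤ C * ‖x‖) (hC : 0 ≤ C) (s : Node) (x : Y) (F : Finset Dt) :
    Le p s x F (C * (‖x‖ + 1)) := by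
  intro u hu A' hA'
  obtain ⟨y, h1, h2, h3⟩ := exists_CE hu x F
  refine ⟨y, ⟨h1.inW, h2⟩, ?_⟩
  exact ((hp y).trans (mul_le_mul_of_nonneg_left h3 hC)).trans hA'.le

theorem InW_sum {ι : Type*} (u : Node) (I : Finset ι) (f : ι → Y) (h : ∀ i ∈ I, InW u (f i)) :
    InW u (∑ i ∈ I, f i) := by
  intro t h1 h2
  rw [map_sum]
  exact Finset.sum_eq_zero fun i hi => h i hi t h1 h2

theorem p_avg {m : ℕ} (hm : 0 < m) (f : Fin m → Y) (B : Fin m → ℝ) (h : ∀ i, p (f i) ≤ B i) :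
    p ((1 / (m : ℝ)) • ∑ i, f i) ≤ (1 / (m : ℝ)) * ∑ i, B i := by
  have hm' : (0 : ℝ) < m := Nat.cast_pos.2 hm
  rw [map_smul_eq_mul, Real.norm_eq_abs, abs_of_pos (one_div_pos.2 hm')]
  apply mul_le_mul_of_nonneg_left _ (one_div_pos.2 hm').le
  have h1 : p (∑ i, f i) ≤ ∑ i, p (f i) :=
    Finset.le_sum_of_subadditive p (map_zero p).le (map_add_le_add p) _ _
  exact h1.trans (Finset.sum_le_sum fun i _ => h i)

theorem Le.avg {m : ℕ} (hm : 0 < m) {s : Node} {F : Finset Dt} (x : Fin m → Y) (A : Fin m → ℝ)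
    (h : ∀ i, Le p s (x i) F (A i)) :
    Le p s ((1 / (m : ℝ)) • ∑ i, x i) F ((1 / (m : ℝ)) * ∑ i, A i) := by
  have hm' : (0 : ℝ) < m := Nat.cast_pos.2 hm
  intro u hu A' hA'
  set e := A' - (1 / (m : ℝ)) * ∑ i, A i with he
  have he0 : 0 < e := by rw [he]; linarith
  have h1 : ∀ i, ∃ y, Adm s u (x i) F y ∧ p y ≤ A i + e := fun i => h i u hu _ (by linarith)
  choose y hy hpy using h1
  refine ⟨(1 / (m : ℝ)) • ∑ i, y i, ⟨?_, ⟨?_, ?_⟩, ?_⟩, ?_⟩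
  · exact (InW_sum u _ _ fun i _ => (hy i).1).smul _
  · intro t ht
    rw [eP_smul, eP_smul, map_sum, map_sum]
    congr 1
    exact Finset.sum_congr rfl fun i _ => (hy i).2.1.1 t ht
  · intro d hd
    rw [eP_smul, eP_smul, map_sum, map_sum]
    congr 1
    exact Finset.sum_congr rfl fun i _ => (hy i).2.1.2 d hd
  · intro t h1 h2
    rw [eP_smul, eP_smul, map_sum, map_sum]
    congr 1
    exact Finset.sum_congr rfl fun i _ => (hy i).2.2 t h1 h2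
  · refine (p_avg hm y (fun i => A i + e) hpy).trans ?_
    rw [Finset.sum_add_distrib, Finset.sum_const, Finset.card_univ, Fintype.card_fin, nsmul_eq_mul,
      mul_add, ← mul_assoc, one_div, inv_mul_cancel₀ hm'.ne', one_mul, he, one_div]
    linarith

/-- a small number -/
theorem small_eta {C g : ℝ} (hC : 0 ≤ C) (hg : 0 < g) : ∃ η, 0 < η ∧ C * η ≤ g := by
  refine ⟨g / (C + 1), by positivity, ?_⟩
  rw [mul_div_assoc', div_le_iff₀ (by linarith)]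
  nlinarith

theorem Le.lip (hp : ∀ x, p x ≤ C * ‖x‖) (hC : 0 ≤ C) {s : Node} {x x' : Y} {F : Finset Dt}
    {A ρ : ℝ} (hρ : 0 ≤ ρ) (h : Le p s x F A)
    (h1 : ∀ t, t ≤ s → |eP (.nd t) x' - eP (.nd t) x| ≤ ρ)
    (h2 : ∀ d ∈ F, |eP (.ct d) x' - eP (.ct d) x| ≤ ρ) : Le p s x' F (A + C * ρ) := by
  intro u hu A' hA'
  set g := A' - (A + C * ρ) with hg
  have hg0 : 0 < g := by rw [hg]; linarith
  obtain ⟨η, hη, hCη⟩ := small_eta hC (half_pos hg0)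
  obtain ⟨k, k1, k2, k3, k4, k5⟩ := trunc (x' - x) (eP (.nd s) (x' - x)) hu F hρ hη
    (fun t ht => by rw [eP_sub]; exact h1 t ht) (fun d hd => by rw [eP_sub]; exact h2 d hd)
    (by rw [eP_sub]; exact h1 s le_rfl)
  obtain ⟨y, ⟨hy1, ⟨hy2, hy3⟩, hy4⟩, hpy⟩ := h u hu (A + g / 2) (by linarith)
  refine ⟨y + k, ⟨hy1.add k1.inW, ⟨?_, ?_⟩, ?_⟩, ?_⟩
  · intro t ht
    rw [eP_add, hy2 t ht, k2 t ht, eP_sub]; ring
  · intro d hd
    rw [eP_add, hy3 d hd, k3 d hd, eP_sub]; ring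
  · intro t ht1 ht2
    rw [eP_add, hy4 t ht1 ht2, k4 t ht1 ht2, eP_sub]; ring
  · have h3 := map_add_le_add p y k
    have h4 := (hp k).trans (mul_le_mul_of_nonneg_left k5 hC)
    have h5 : C * (ρ + η) = C * ρ + C * η := by ring
    linarith

theorem KLe.mono {s s' : Node} {x : Y} {F F' : Finset Dt} {R A B : ℝ} (h : KLe p s' x F' R A)
    (hs : s ≤ s') (hF : F ⊆ F') (hAB : A ≤ B) : KLe p s x F R B := by
  intro A' hA'
  obtain ⟨u, hu, y, hy1, hy2, hy3⟩ := h A' (hAB.trans_lt hA')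
  exact ⟨u, hs.trans_lt hu, y, hy1.mono hs hF, hy2, hy3.mono le_rfl hF⟩

theorem KLe.congr {s : Node} {x x' : Y} {F : Finset Dt} {R A : ℝ} (h : KLe p s x F R A)
    (hx : Agr s F x x') : KLe p s x' F R A := by
  intro A' hA'
  obtain ⟨u, hu, y, hy1, hy2, hy3⟩ := h A' hA'
  exact ⟨u, hu, y, hx.symm.trans hy1, hy2, hy3⟩

theorem KLe.nonneg {s : Node} {x : Y} {F : Finset Dt} {R A : ℝ} (h : KLe p s x F R A) :
    0 ≤ A := by
  apply le_of_forall_gt_imp_ge_of_dense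
  intro A' hA'
  obtain ⟨u, hu, y, hy1, hy2, hy3⟩ := h A' hA'
  exact hy3.nonneg

theorem KLe.lip (hp : ∀ x, p x ≤ C * ‖x‖) (hC : 0 ≤ C) {s : Node} {x x' : Y} {F : Finset Dt}
    {R R' A ρ : ℝ} (hρ : 0 ≤ ρ) (h : KLe p s x F R A)
    (h1 : ∀ t, t ≤ s → |eP (.nd t) x' - eP (.nd t) x| ≤ ρ)
    (h2 : ∀ d ∈ F, |eP (.ct d) x' - eP (.ct d) x| ≤ ρ) (h3 : |R' - R| ≤ ρ) :
    KLe p s x' F R' (A + C * ρ) := by
  intro A' hA'
  set g := A' - (A + C * ρ) with hg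
  have hg0 : 0 < g := by rw [hg]; linarith
  obtain ⟨η, hη, hCη⟩ := small_eta hC (half_pos hg0)
  obtain ⟨u, hu, y, hy1, hy2, hy3⟩ := h (A + g / 2) (by linarith)
  obtain ⟨k, k1, k2, k3, k4, k5⟩ := trunc (x' - x) (R' - R) hu.le F hρ hη
    (fun t ht => by rw [eP_sub]; exact h1 t ht) (fun d hd => by rw [eP_sub]; exact h2 d hd) h3
  refine ⟨u, hu, y + k, ⟨?_, ?_⟩, ?_, ?_⟩
  · intro t ht
    rw [eP_add, hy1.1 t ht, k2 t ht, eP_sub]; ring
  · intro d hd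
    rw [eP_add, hy1.2 d hd, k3 d hd, eP_sub]; ring
  · rw [eP_add, hy2, k4 u hu le_rfl]; ring
  · have h5 : A + g / 2 + C * (ρ + η) ≤ A' := by
      have h5 : C * (ρ + η) = C * ρ + C * η := by ring
      linarith
    refine Le.mono (Le.lip hp hC (by linarith) hy3 (ρ := ρ + η) ?_ ?_) h5 (Finset.Subset.refl F)
    · intro t _
      rw [eP_add, add_sub_cancel_left]
      exact (abs_eP_le _ _).trans k5
    · intro d _
      rw [eP_add, add_sub_cancel_left]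
      exact (abs_eP_le _ _).trans k5

theorem KLe_exists (hp : ∀ x, p x ≤ C * ‖x‖) (hC : 0 ≤ C) (s : Node) (x : Y) (F : Finset Dt)
    (R : ℝ) : ∃ A, KLe p s x F R A := by
  have hu : s < child s 0 := lt_child s 0
  obtain ⟨k, k1, k2, k3, k4, k5⟩ := trunc x R hu.le F (ρ := max ‖x‖ |R|)
    ((norm_nonneg x).trans (le_max_left _ _)) one_pos
    (fun t _ => (abs_eP_le _ _).trans (le_max_left _ _))
    (fun d _ => (abs_eP_le _ _).trans (le_max_left _ _)) (le_max_right _ _)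
  refine ⟨C * (‖k‖ + 1), fun A' hA' => ⟨child s 0, hu, k, ⟨k2, k3⟩, k4 _ hu le_rfl, ?_⟩⟩
  exact (Le_of_norm hp hC _ k F).mono hA'.le (Finset.Subset.refl F)

/-- the infimum is attained -/
theorem KLe_min (hp : ∀ x, p x ≤ C * ‖x‖) (hC : 0 ≤ C) (s : Node) (x : Y) (F : Finset Dt)
    (R : ℝ) : ∃ A, KLe p s x F R A ∧ ∀ B, KLe p s x F R B → A ≤ B := by
  obtain ⟨A0, hA0⟩ := KLe_exists hp hC s x F R
  have hbdd : BddBelow {A | KLe p s x F R A} := ⟨0, fun A hA => KLe.nonneg hA⟩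
  refine ⟨sInf {A | KLe p s x F R A}, ?_, fun B hB => csInf_le hbdd hB⟩
  intro A' hA'
  obtain ⟨B, hB, hBA⟩ := exists_lt_of_csInf_lt (s := {A | KLe p s x F R A}) ⟨A0, hA0⟩ hA'
  exact hB A' hBA

end Pool.Agent.Helper957.TB.Tree
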