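import Pool.Agent.Helper957.TB.GB

set_option autoImplicit false

namespace Pool.Agent.Helper957.TB.Tree

open Set Filter Topology BoundedContinuousFunction

/-- the generators below a node -/
def genR (r : Node) : Set Y := (chiT '' Set.Iic r) ∪ Set.range eD

theorem genR_sep (r : Node) :
    TopologicalSpace.IsSeparable ((Submodule.span ℝ (genR r) : Submodule ℝ Y) : Set Y) := by
  apply TopologicalSpace.IsSeparable.span
  apply Set.Countable.isSeparable
  exact ((countable_Iic_node r).image _).union (Set.countable_range _)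

/-- the generators in the space -/
def genYY : Set Y := Set.range chiT ∪ Set.range eD

theorem lift_span {g : BT} (hg : g ∈ Submodule.span ℝ genT) :
    ∃ w ∈ Submodule.span ℝ genYY, incY w = g := by
  induction hg using Submodule.span_induction with
  | mem x hx =>
    rcases hx with ⟨t, rfl⟩ | ⟨d, rfl⟩
    · exact ⟨chiT t, Submodule.subset_span (Or.inl ⟨t, rfl⟩), rfl⟩
    · exact ⟨eD d, Submodule.subset_span (Or.inr ⟨d, rfl⟩), rfl⟩
  | zero => exact ⟨0, Submodule.zero_mem _, map_zero _⟩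
  | add x y _ _ h1 h2 =>
    obtain ⟨w1, a1, b1⟩ := h1
    obtain ⟨w2, a2, b2⟩ := h2
    exact ⟨w1 + w2, Submodule.add_mem _ a1 a2, by rw [map_add, b1, b2]⟩
  | smul c x _ h1 =>
    obtain ⟨w1, a1, b1⟩ := h1
    exact ⟨c • w1, Submodule.smul_mem _ _ a1, by rw [map_smul, b1]⟩

theorem approxYY (x : Y) {r : ℝ} (hr : 0 < r) :
    ∃ w ∈ Submodule.span ℝ genYY, ∀ z, |eP z x - eP z w| ≤ r := by
  obtain ⟨g, hg, hxg⟩ := approxY x hr
  obtain ⟨w, hw, hwg⟩ := lift_span hg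
  refine ⟨w, hw, fun z => ?_⟩
  have : eP z w = g z := by rw [← hwg]; rfl
  rw [this]; exact hxg z

theorem restrict_span (r : Node) {g : Y} (hg : g ∈ Submodule.span ℝ genYY) :
    ∃ w ∈ Submodule.span ℝ (genR r), ∀ t, t ≤ r → eP (.nd t) w = eP (.nd t) g := by
  classical
  induction hg using Submodule.span_induction with
  | mem x hx =>
    rcases hx with ⟨u, rfl⟩ | ⟨d, rfl⟩
    · obtain ⟨v, h1, h2, h3, -⟩ := meet_glb r u
      refine ⟨chiT v, Submodule.subset_span (Or.inl ⟨v, h1, rfl⟩), fun t ht => ?_⟩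
      rw [eP_nd_chiT, eP_nd_chiT]
      by_cases h : t ≤ u
      · rw [if_pos h, if_pos (h3 t ht h)]
      · rw [if_neg h, if_neg fun h' => h (h'.trans h2)]
    · exact ⟨eD d, Submodule.subset_span (Or.inr ⟨d, rfl⟩), fun t _ => rfl⟩
  | zero => exact ⟨0, Submodule.zero_mem _, fun t _ => rfl⟩
  | add x y _ _ h1 h2 =>
    obtain ⟨w1, a1, b1⟩ := h1
    obtain ⟨w2, a2, b2⟩ := h2
    exact ⟨w1 + w2, Submodule.add_mem _ a1 a2, fun t ht => by rw [eP_add, eP_add, b1 t ht, b2 t ht]⟩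
  | smul c x _ h1 =>
    obtain ⟨w1, a1, b1⟩ := h1
    exact ⟨c • w1, Submodule.smul_mem _ _ a1, fun t ht => by rw [eP_smul, eP_smul, b1 t ht]⟩

theorem fs_mem (r : Node) (F : Finset Dt) (a : Dt → ℝ) : fs F a ∈ Submodule.span ℝ (genR r) := by
  unfold fs
  apply Submodule.sum_mem
  intro d _
  exact Submodule.smul_mem _ _ (Submodule.subset_span (Or.inr ⟨d, rfl⟩))

theorem sep_seq (r : Node) : ∃ e : ℕ → Y, ∀ (x : Y) (F : Finset Dt) (ρ : ℝ), 0 < ρ →
    ∃ n, (∀ t, t ≤ r → |eP (.nd t) x - eP (.nd t) (e n)| ≤ ρ) ∧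
      ∀ d ∈ F, |eP (.ct d) x - eP (.ct d) (e n)| ≤ ρ := by
  obtain ⟨c, hc1, hc2, hc3⟩ := (genR_sep r).exists_countable_dense_subset
  have hne : c.Nonempty := by
    rw [← closure_nonempty_iff]
    exact ⟨0, hc3 (Submodule.zero_mem _)⟩
  obtain ⟨e, he⟩ := hc2.exists_eq_range hne
  refine ⟨e, fun x F ρ hρ => ?_⟩
  obtain ⟨g, hg, hxg⟩ := approxYY x (half_pos hρ)
  obtain ⟨w, hw, hwg⟩ := restrict_span r hg
  set w' := w + fs F (fun d => eP (.ct d) x - eP (.ct d) w) with hw'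
  have hw'm : w' ∈ Submodule.span ℝ (genR r) := Submodule.add_mem _ hw (fs_mem r F _)
  obtain ⟨v, hv, hd⟩ := Metric.mem_closure_iff.1 (hc3 hw'm) (ρ / 2) (half_pos hρ)
  rw [he] at hv
  obtain ⟨n, rfl⟩ := hv
  rw [dist_eq_norm] at hd
  have hz : ∀ z, |eP z w' - eP z (e n)| ≤ ρ / 2 := by
    intro z
    rw [← eP_sub]
    exact (abs_eP_le z _).trans hd.le
  refine ⟨n, fun t ht => ?_, fun d hdF => ?_⟩
  · have h1 := hz (.nd t)
    have h2 := hxg (.nd t)
    have h3 : eP (.nd t) w' = eP (.nd t) g := by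
      rw [hw', eP_add, eP_nd_fs, add_zero, hwg t ht]
    rw [h3] at h1
    have := abs_sub_le (eP (.nd t) x) (eP (.nd t) g) (eP (.nd t) (e n))
    linarith
  · have h1 := hz (.ct d)
    have h3 : eP (.ct d) w' = eP (.ct d) x := by
      rw [hw', eP_add, eP_ct_fs _ _ hdF]; ring
    rw [h3] at h1
    linarith

variable {p : Seminorm ℝ Y} {C : ℝ}

/-- the task of raising to `R` above `r` is solved at `q` -/
def Solved (p : Seminorm ℝ Y) (r q : Node) (x : Y) (F : Finset Dt) (R η : ℝ) : Prop :=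
  ∃ y, Agr r F x y ∧ eP (.nd q) y = R ∧
    ∀ x', CE r q x F x' → ∀ A, KLe p q x' F R A → Le p q y F (A + η)

theorem CE.agr {r q : Node} {x x' x'' : Y} {F : Finset Dt} (hrq : r ≤ q) (h : CE r q x F x')
    (h' : CE r q x F x'') : Agr q F x' x'' := (CE.shift hrq le_rfl h' h).1

theorem Solved.up {r q q' : Node} {x : Y} {F : Finset Dt} {R η : ℝ} (hrq : r ≤ q) (hq : q ≤ q')
    (h : Solved p r q x F R η) : Solved p r q' x F R η := by
  obtain ⟨y, h1, h2, h3⟩ := h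
  obtain ⟨y', -, hy', -⟩ := exists_CE hq y F
  refine ⟨y', h1.trans (hy'.1.mono hrq (Finset.Subset.refl F)), (hy'.top hq).trans h2, ?_⟩
  intro x' hx' A hA
  have h4 := h3 x' (hx'.restrict hq) A (hA.mono hq (Finset.Subset.refl F) le_rfl)
  exact h4.ce hq hy'

theorem Solved.dense (hp : ∀ x, p x ≤ C * ‖x‖) (hC : 0 ≤ C) {r q : Node} (hrq : r ≤ q) (x : Y)
    (F : Finset Dt) (R : ℝ) {η : ℝ} (hη : 0 < η) : ∃ u, q < u ∧ Solved p r u x F R η := by
  obtain ⟨x1, -, hx1, -⟩ := exists_CE hrq x F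
  obtain ⟨A0, hA0, hmin⟩ := KLe_min hp hC q x1 F R
  obtain ⟨u, hu, y, hy1, hy2, hy3⟩ := hA0 (A0 + η) (by linarith)
  refine ⟨u, hu, y, hx1.1.trans (hy1.mono hrq (Finset.Subset.refl F)), hy2, ?_⟩
  intro x' hx' A hA
  have h1 : KLe p q x1 F R A :=
    (hA.mono hu.le (Finset.Subset.refl F) le_rfl).congr ((hx'.restrict hu.le).agr hrq hx1)
  exact hy3.mono (by linarith [hmin A h1]) (Finset.Subset.refl F)

/-- nonnegative Lipschitz slack -/
theorem P1 (hp : ∀ x, p x ≤ C * ‖x‖) (hC : 0 ≤ C) (r : Node) :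
    ∃ q, r < q ∧ ∀ (x : Y) (F : Finset Dt) (R η : ℝ), 0 < η → Solved p r q x F R η := by
  obtain ⟨e, he⟩ := sep_seq r
  obtain ⟨f, hf⟩ := exists_surjective_nat (ℕ × Finset Dt × ℚ × ℕ)
  have hmain : ∃ q, child r 0 ≤ q ∧ ∀ n, (child r 0 ≤ q ∧ Solved p r q (e (f n).1) (f n).2.1
      ((f n).2.2.1 : ℝ) (1 / ((f n).2.2.2 + 1 : ℝ))) := by
    apply sigma_principle (fun n q => child r 0 ≤ q ∧ Solved p r q (e (f n).1) (f n).2.1
      ((f n).2.2.1 : ℝ) (1 / ((f n).2.2.2 + 1 : ℝ)))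
    · rintro n s t hst ⟨h1, h2⟩
      exact ⟨h1.trans hst, h2.up ((lt_child r 0).le.trans h1) hst⟩
    · intro n s hs
      obtain ⟨u, hu, hS⟩ := Solved.dense hp hC ((lt_child r 0).le.trans hs) (e (f n).1) (f n).2.1
        ((f n).2.2.1 : ℝ) (η := 1 / ((f n).2.2.2 + 1 : ℝ)) (by positivity)
      exact ⟨u, hu.le, hs.trans hu.le, hS⟩
  obtain ⟨q, hq0, hq⟩ := hmain
  have hrq : r < q := (lt_child r 0).trans_le hq0
  refine ⟨q, hrq, fun x F R η hη => ?_⟩
  obtain ⟨ρ, hρ, hCρ⟩ := small_eta hC (show 0 < η / 4 by positivity)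
  obtain ⟨i, hi1, hi2⟩ := he x F ρ hρ
  obtain ⟨R0, hR1, hR2⟩ := exists_rat_btwn (show R - ρ < R + ρ by linarith)
  obtain ⟨k, hk⟩ := exists_nat_one_div_lt (show 0 < η / 4 by positivity)
  obtain ⟨n, hn⟩ := hf (i, F, R0, k)
  have hS := (hq n).2
  rw [hn] at hS
  simp only at hS
  obtain ⟨y0, a1, a2, a3⟩ := hS
  have hRR : |R - (R0 : ℝ)| ≤ ρ := by rw [abs_le]; constructor <;> linarith
  obtain ⟨κ, k1, k2, k3, k4, k5⟩ := trunc (x - e i) (R - R0) hrq.le F hρ.le hρ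
    (fun t ht => by rw [eP_sub]; exact hi1 t ht) (fun d hd => by rw [eP_sub]; exact hi2 d hd) hRR
  refine ⟨y0 + κ, ⟨?_, ?_⟩, ?_, ?_⟩
  · intro t ht
    rw [eP_add, a1.1 t ht, k2 t ht, eP_sub]; ring
  · intro d hd
    rw [eP_add, a1.2 d hd, k3 d hd, eP_sub]; ring
  · rw [eP_add, a2, k4 q hrq le_rfl]; ring
  · intro x' hx' A hA
    obtain ⟨x0, -, hx0, -⟩ := exists_CE hrq.le (e i) F
    have hA0 : KLe p q x0 F R0 (A + C * ρ) := by
      apply hA.lip hp hC hρ.le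
      · intro t ht
        rcases comparable ht hrq.le with h | h
        · rw [hx0.1.1 t h, hx'.1.1 t h, abs_sub_comm]; exact hi1 t h
        · rcases h.eq_or_lt with h' | h'
          · subst h'
            rw [hx0.1.1 _ le_rfl, hx'.1.1 _ le_rfl, abs_sub_comm]; exact hi1 _ le_rfl
          · rw [hx0.2 t h' ht, hx'.2 t h' ht, abs_sub_comm]; exact hi1 r le_rfl
      · intro d hd
        rw [hx0.1.2 d hd, hx'.1.2 d hd, abs_sub_comm]; exact hi2 d hd
      · rw [abs_sub_comm]; exact hRR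
    have h1 := a3 x0 hx0 _ hA0
    have h2 : Le p q (y0 + κ) F (A + C * ρ + 1 / ((k : ℝ) + 1) + C * (ρ + ρ)) := by
      apply h1.lip hp hC (by linarith)
      · intro t _
        rw [eP_add, add_sub_cancel_left]
        exact (abs_eP_le _ _).trans k5
      · intro d _
        rw [eP_add, add_sub_cancel_left]
        exact (abs_eP_le _ _).trans k5
    refine h2.mono ?_ (Finset.Subset.refl F)
    have h3 : C * (ρ + ρ) = C * ρ + C * ρ := by ring
    linarith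

/-- feasibility with value `R` between `z` and `q` and cost at most `B` -/
def Feas (p : Seminorm ℝ Y) (z q : Node) (x : Y) (F : Finset Dt) (R B : ℝ) : Prop :=
  ∃ y, InW q y ∧ Agr z F x y ∧ (∀ t, z < t → t ≤ q → eP (.nd t) y = R) ∧ p y ≤ B

theorem Feas.restrict {z q q' : Node} {x : Y} {F : Finset Dt} {R B : ℝ} (hq : q ≤ q')
    (h : Feas p z q' x F R B) : Feas p z q x F R B := by
  obtain ⟨y, h1, h2, h3, h4⟩ := h
  exact ⟨y, h1.mono hq, h2, fun t ht ht' => h3 t ht (ht'.trans hq), h4⟩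

theorem Feas.mono {z q : Node} {x : Y} {F : Finset Dt} {R B B' : ℝ} (hB : B ≤ B')
    (h : Feas p z q x F R B) : Feas p z q x F R B' := by
  obtain ⟨y, h1, h2, h3, h4⟩ := h
  exact ⟨y, h1, h2, h3, h4.trans hB⟩

theorem Feas_exists (hp : ∀ x, p x ≤ C * ‖x‖) (hC : 0 ≤ C) {z q : Node} (hzq : z ≤ q) (x : Y)
    (F : Finset Dt) (R : ℝ) : Feas p z q x F R (C * (max ‖x‖ |R| + 1)) := by
  obtain ⟨k, k1, k2, k3, k4, k5⟩ := trunc x R hzq F (ρ := max ‖x‖ |R|)
    ((norm_nonneg x).trans (le_max_left _ _)) one_pos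
    (fun t _ => (abs_eP_le _ _).trans (le_max_left _ _))
    (fun d _ => (abs_eP_le _ _).trans (le_max_left _ _)) (le_max_right _ _)
  exact ⟨k, k1.inW, ⟨k2, k3⟩, k4, (hp k).trans (mul_le_mul_of_nonneg_left k5 hC)⟩

/-- stability of feasibility -/
def Dst (p : Seminorm ℝ Y) (z q : Node) (x : Y) (F : Finset Dt) (R η : ℝ) : Prop :=
  ∀ v, q ≤ v → ∀ B, Feas p z q x F R B → Feas p z v x F R (B + η)

theorem Dst.up {z q q' : Node} {x : Y} {F : Finset Dt} {R η : ℝ} (hq : q ≤ q')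
    (h : Dst p z q x F R η) : Dst p z q' x F R η := by
  intro v hv B hB
  exact h v (hq.trans hv) B (hB.restrict hq)

theorem Dst.dense (hp : ∀ x, p x ≤ C * ‖x‖) (hC : 0 ≤ C) {z q : Node} (hzq : z ≤ q) (x : Y)
    (F : Finset Dt) (R : ℝ) {η : ℝ} (hη : 0 < η) : ∃ u, q ≤ u ∧ Dst p z u x F R η := by
  let V : {q : Node // z ≤ q} → ℝ := fun q => sInf {b | Feas p z q.1 x F R b}
  have hbdd : ∀ q : Node, BddBelow {b | Feas p z q x F R b} := by
    intro q
    refine ⟨0, ?_⟩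
    rintro b ⟨y, -, -, -, h⟩
    exact (apply_nonneg p y).trans h
  obtain ⟨u, hu1, hu2⟩ := mono_principle (Q := {q : Node // z ≤ q}) (fun a b => a.1 ≤ b.1)
    (fun a => le_rfl) (fun a b c h1 h2 => le_trans h1 h2)
    (fun s hs => by
      obtain ⟨u, hu⟩ := exists_ub_node (fun n => (s n).1) hs
      exact ⟨⟨u, (s 0).2.trans (hu 0)⟩, hu⟩)
    V (C * (max ‖x‖ |R| + 1))
    (fun a b hab => csInf_le_csInf (hbdd a.1) ⟨_, Feas_exists hp hC b.2 x F R⟩
      (fun b' hb' => hb'.restrict hab))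
    (fun a => csInf_le (hbdd a.1) (Feas_exists hp hC a.2 x F R)) ⟨q, hzq⟩
  refine ⟨u.1, hu1, fun v hv B hB => ?_⟩
  have h1 : V u ≤ B := csInf_le (hbdd u.1) hB
  have h2 : V ⟨v, u.2.trans hv⟩ = V u := hu2 _ hv
  have h3 : sInf {b | Feas p z v x F R b} < B + η := by
    have : V ⟨v, u.2.trans hv⟩ = sInf {b | Feas p z v x F R b} := rfl
    rw [← this, h2]; linarith
  obtain ⟨b, hb, hbB⟩ := exists_lt_of_csInf_lt (s := {b | Feas p z v x F R b})
    ⟨_, Feas_exists hp hC (u.2.trans hv) x F R⟩ h3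
  exact Feas.mono hbB.le hb

theorem P2 (hp : ∀ x, p x ≤ C * ‖x‖) (hC : 0 ≤ C) (z : Node) :
    ∃ q, z < q ∧ ∀ (y : Y) (F : Finset Dt), InW q y →
      (∀ t, z < t → t ≤ q → eP (.nd t) y = eP (.nd q) y) → Le p q y F (p y) := by
  obtain ⟨e, he⟩ := sep_seq z
  obtain ⟨f, hf⟩ := exists_surjective_nat (ℕ × Finset Dt × ℚ × ℕ)
  have hmain : ∃ q, child z 0 ≤ q ∧ ∀ n, (Dst p z q (e (f n).1) (f n).2.1
      ((f n).2.2.1 : ℝ) (1 / ((f n).2.2.2 + 1 : ℝ))) := by
    apply sigma_principle (fun n q => Dst p z q (e (f n).1) (f n).2.1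
      ((f n).2.2.1 : ℝ) (1 / ((f n).2.2.2 + 1 : ℝ)))
    · intro n s t hst h
      exact h.up hst
    · intro n s hs
      exact Dst.dense hp hC ((lt_child z 0).le.trans hs) (e (f n).1) (f n).2.1
        ((f n).2.2.1 : ℝ) (η := 1 / ((f n).2.2.2 + 1 : ℝ)) (by positivity)
  obtain ⟨q, hq0, hq⟩ := hmain
  have hzq : z < q := (lt_child z 0).trans_le hq0
  refine ⟨q, hzq, fun y F hW hconst v hv A' hA' => ?_⟩
  set R := eP (.nd q) y with hR
  set g := A' - p y with hg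
  have hg0 : 0 < g := by rw [hg]; linarith
  obtain ⟨ρ, hρ, hCρ⟩ := small_eta hC (show 0 < g / 8 by positivity)
  obtain ⟨i, hi1, hi2⟩ := he y F ρ hρ
  obtain ⟨R0, hR1, hR2⟩ := exists_rat_btwn (show R - ρ < R + ρ by linarith)
  obtain ⟨k, hk⟩ := exists_nat_one_div_lt (show 0 < g / 8 by positivity)
  obtain ⟨n, hn⟩ := hf (i, F, R0, k)
  have hS := hq n
  rw [hn] at hS
  simp only at hS
  have hRR : |R - (R0 : ℝ)| ≤ ρ := by rw [abs_le]; constructor <;> linarith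
  obtain ⟨κ, k1, k2, k3, k4, k5⟩ := trunc (e i - y) (R0 - R) hzq.le F hρ.le hρ
    (fun t ht => by rw [eP_sub, abs_sub_comm]; exact hi1 t ht)
    (fun d hd => by rw [eP_sub, abs_sub_comm]; exact hi2 d hd) (by rw [abs_sub_comm]; exact hRR)
  have hF0 : Feas p z q (e i) F R0 (p y + C * (ρ + ρ)) := by
    refine ⟨y + κ, hW.add k1.inW, ⟨?_, ?_⟩, ?_, ?_⟩
    · intro t ht
      rw [eP_add, k2 t ht, eP_sub]; ring
    · intro d hd
      rw [eP_add, k3 d hd, eP_sub]; ring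
    · intro t ht ht'
      rw [eP_add, k4 t ht ht', hconst t ht ht']; ring
    · exact (map_add_le_add p _ _).trans
        (add_le_add le_rfl ((hp κ).trans (mul_le_mul_of_nonneg_left k5 hC)))
  obtain ⟨y1, b1, b2, b3, b4⟩ := hS v hv _ hF0
  obtain ⟨τ, t1, t2, t3, t4, t5⟩ := trunc (y - e i) (R - R0) (hzq.le.trans hv) F hρ.le hρ
    (fun t ht => by rw [eP_sub]; exact hi1 t ht)
    (fun d hd => by rw [eP_sub]; exact hi2 d hd) hRR
  have hval : ∀ t, z < t → t ≤ v → eP (.nd t) (y1 + τ) = R := by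
    intro t ht ht'
    rw [eP_add, b3 t ht ht', t4 t ht ht']; ring
  refine ⟨y1 + τ, ⟨b1.add t1.inW, ⟨?_, ?_⟩, ?_⟩, ?_⟩
  · intro t ht
    rcases comparable ht hzq.le with h | h
    · rw [eP_add, b2.1 t h, t2 t h, eP_sub]; ring
    · rcases h.eq_or_lt with h' | h'
      · subst h'
        rw [eP_add, b2.1 _ le_rfl, t2 _ le_rfl, eP_sub]; ring
      · rw [hval t h' (ht.trans hv), hconst t h' ht]
  · intro d hd
    rw [eP_add, b2.2 d hd, t3 d hd, eP_sub]; ring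
  · intro t ht ht'
    exact hval t (hzq.trans ht) ht'
  · have h3 := (map_add_le_add p y1 τ).trans
      (add_le_add b4 ((hp τ).trans (mul_le_mul_of_nonneg_left t5 hC)))
    have h4 : C * (ρ + ρ) = C * ρ + C * ρ := by ring
    linarith

end Pool.Agent.Helper957.TB.Tree
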