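import Pool.Agent.Helper957.TB.GC

set_option autoImplicit false

namespace Pool.Agent.Helper957.TB.Tree

open Set Filter Topology BoundedContinuousFunction

theorem exists_sup (r : ℕ → Node) (hr : ∀ n, r n < r (n + 1)) :
    ∃ s, (∀ n, r n < s) ∧ ∀ t, t < s → ∃ n, t ≤ r n := by
  obtain ⟨u, hu⟩ := exists_ub_node r (fun n => (hr n).le)
  obtain ⟨s, hs, hmin⟩ := WellFounded.has_min (wellFounded_lt (α := Node))
    {u | ∀ n, r n ≤ u} ⟨u, hu⟩
  refine ⟨s, fun n => (hr n).trans_le (hs (n + 1)), fun t ht => ?_⟩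
  have h1 : t ∉ {u | ∀ n, r n ≤ u} := fun h => hmin t h ht
  rw [Set.mem_ofPred_eq, not_forall] at h1
  obtain ⟨n, hn⟩ := h1
  refine ⟨n, ?_⟩
  rcases comparable ht.le (hs n) with h | h
  · exact h
  · exact absurd h hn

theorem cont_span (r : ℕ → Node) (hr : ∀ n, r n < r (n + 1)) {s : Node} (h1 : ∀ n, r n < s)
    (h2 : ∀ t, t < s → ∃ n, t ≤ r n) {w : Y} (hw : w ∈ Submodule.span ℝ genYY) :
    ∃ n, ∀ t, r n < t → t ≤ s → eP (.nd t) w = eP (.nd s) w := by
  classical
  have hmono : Monotone r := monotone_nat_of_le_succ fun n => (hr n).le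
  induction hw using Submodule.span_induction with
  | mem x hx =>
    rcases hx with ⟨u, rfl⟩ | ⟨d, rfl⟩
    · obtain ⟨s', hs', h3⟩ := left_cont s u ⟨r 0, h1 0⟩
      obtain ⟨n, hn⟩ := h2 s' hs'
      refine ⟨n, fun t ht hts => ?_⟩
      rw [eP_nd_chiT, eP_nd_chiT]
      have := h3 t (hn.trans_lt ht) hts
      by_cases h : s ≤ u
      · rw [if_pos h, if_pos (this.2 h)]
      · rw [if_neg h, if_neg fun h' => h (this.1 h')]
    · exact ⟨0, fun t _ _ => rfl⟩
  | zero => exact ⟨0, fun t _ _ => rfl⟩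
  | add x y _ _ hx hy =>
    obtain ⟨n, hn⟩ := hx
    obtain ⟨m, hm⟩ := hy
    refine ⟨max n m, fun t ht hts => ?_⟩
    rw [eP_add, eP_add, hn t ((hmono (le_max_left n m)).trans_lt ht) hts,
      hm t ((hmono (le_max_right n m)).trans_lt ht) hts]
  | smul c x _ hx =>
    obtain ⟨n, hn⟩ := hx
    exact ⟨n, fun t ht hts => by rw [eP_smul, eP_smul, hn t ht hts]⟩

theorem cont_sup (r : ℕ → Node) (hr : ∀ n, r n < r (n + 1)) {s : Node} (h1 : ∀ n, r n < s)
    (h2 : ∀ t, t < s → ∃ n, t ≤ r n) (x : Y) {η : ℝ} (hη : 0 < η) :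
    ∃ n, ∀ t, r n < t → t ≤ s → |eP (.nd t) x - eP (.nd s) x| ≤ η := by
  obtain ⟨w, hw, hxw⟩ := approxYY x (half_pos hη)
  obtain ⟨n, hn⟩ := cont_span r hr h1 h2 hw
  refine ⟨n, fun t ht hts => ?_⟩
  have h3 := hxw (.nd t)
  have h4 := hxw (.nd s)
  rw [hn t ht hts] at h3
  rw [abs_le] at h3 h4 ⊢
  constructor <;> linarith [h3.1, h3.2, h4.1, h4.2]

/-- Ekeland variational principle -/
theorem ekeland {X : Type*} [MetricSpace X] [CompleteSpace X] (S : Set X) (hS : IsClosed S)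
    (x0 : X) (hx0 : x0 ∈ S) (E : X → ℝ) (hE : Continuous E) (m : ℝ) (hm : ∀ x ∈ S, m ≤ E x)
    {ε : ℝ} (hε : 0 < ε) : ∃ x ∈ S, ∀ y ∈ S, E x ≤ E y + ε * dist x y := by
  classical
  let T : {x // x ∈ S} → Set ℝ := fun x => {e | ∃ y ∈ S, E y + ε * dist x.1 y ≤ E x.1 ∧ E y = e}
  have hTb : ∀ x, BddBelow (T x) := by
    intro x
    refine ⟨m, ?_⟩
    rintro e ⟨y, hy, -, rfl⟩
    exact hm y hy
  have hTne : ∀ x, (T x).Nonempty := fun x => ⟨E x.1, x.1, x.2, by simp, rfl⟩
  have hnext : ∀ x : {x // x ∈ S}, ∃ y : {x // x ∈ S}, E y.1 + ε * dist x.1 y.1 ≤ E x.1 ∧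
      E y.1 ≤ (E x.1 + sInf (T x)) / 2 := by
    intro x
    have h1 : sInf (T x) ≤ E x.1 := csInf_le (hTb x) ⟨x.1, x.2, by simp, rfl⟩
    rcases h1.eq_or_lt with h | h
    · exact ⟨x, by simp, by rw [h]; simp⟩
    · obtain ⟨e, ⟨y, hy, hy1, rfl⟩, hy2⟩ := exists_lt_of_csInf_lt (hTne x)
        (show sInf (T x) < (E x.1 + sInf (T x)) / 2 by linarith)
      exact ⟨⟨y, hy⟩, hy1, hy2.le⟩
  choose nxt hn1 hn2 using hnext
  let s : ℕ → {x // x ∈ S} := fun n => Nat.rec ⟨x0, hx0⟩ (fun _ q => nxt q) n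
  have hs1 : ∀ n, s (n + 1) = nxt (s n) := fun n => rfl
  have hstep : ∀ n, E (s (n + 1)).1 + ε * dist (s n).1 (s (n + 1)).1 ≤ E (s n).1 := by
    intro n; rw [hs1]; exact hn1 _
  have hchain : ∀ n k, E (s (n + k)).1 + ε * dist (s n).1 (s (n + k)).1 ≤ E (s n).1 := by
    intro n k
    induction k with
    | zero => simp
    | succ k ih =>
      have h1 := hstep (n + k)
      have h2 := dist_triangle (s n).1 (s (n + k)).1 (s (n + k + 1)).1
      have h3 := mul_le_mul_of_nonneg_left h2 hε.le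
      rw [mul_add] at h3
      show E (s (n + k + 1)).1 + ε * dist (s n).1 (s (n + k + 1)).1 ≤ E (s n).1
      linarith
  have hanti : Antitone fun n => E (s n).1 := by
    apply antitone_nat_of_succ_le
    intro n
    have h1 := hstep n
    have h2 : 0 ≤ ε * dist (s n).1 (s (n + 1)).1 := mul_nonneg hε.le dist_nonneg
    linarith
  have hbdd : BddBelow (Set.range fun n => E (s n).1) :=
    ⟨m, by rintro _ ⟨n, rfl⟩; exact hm _ (s n).2⟩
  have hlim := tendsto_atTop_ciInf hanti hbdd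
  set e := ⨅ n, E (s n).1 with he
  have hele : ∀ n, e ≤ E (s n).1 := fun n => ciInf_le hbdd n
  have hcauchy : CauchySeq fun n => (s n).1 := by
    apply cauchySeq_of_le_tendsto_0 (fun n => (E (s n).1 - e) / ε)
    · have key : ∀ n k N, N ≤ n → n ≤ k → dist (s n).1 (s k).1 ≤ (E (s N).1 - e) / ε := by
        intro n k N hN hk
        obtain ⟨j, rfl⟩ := Nat.exists_eq_add_of_le hk
        rw [le_div_iff₀ hε]
        have h1 := hchain n j
        have h2 := hele (n + j)
        have h3 := hanti hN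
        simp only at h3
        linarith
      intro n k N hN hk
      rcases le_total n k with h | h
      · exact key n k N hN h
      · rw [dist_comm]; exact key k n N hk h
    · have h1 : Tendsto (fun n => (E (s n).1 - e) / ε) atTop (𝓝 ((e - e) / ε)) :=
        (hlim.sub_const e).div_const ε
      simpa using h1
  obtain ⟨x, hx⟩ := cauchySeq_tendsto_of_complete hcauchy
  have hxS : x ∈ S := hS.mem_of_tendsto hx (Eventually.of_forall fun n => (s n).2)
  have hEx : Tendsto (fun n => E (s n).1) atTop (𝓝 (E x)) := (hE.tendsto x).comp hx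
  have heq : E x = e := tendsto_nhds_unique hEx hlim
  have hxT : ∀ n, E x + ε * dist (s n).1 x ≤ E (s n).1 := by
    intro n
    have h1 : Tendsto (fun k => E (s (n + k)).1 + ε * dist (s n).1 (s (n + k)).1) atTop
        (𝓝 (E x + ε * dist (s n).1 x)) := by
      have h2 : Tendsto (fun k => n + k) atTop atTop := 
        tendsto_atTop_mono (fun k => Nat.le_add_left k n) tendsto_id
      have h3 := hx.comp h2
      have h4 := hEx.comp h2
      exact h4.add ((tendsto_const_nhds.dist h3).const_mul ε)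
    exact le_of_tendsto' h1 (hchain n)
  refine ⟨x, hxS, fun y hy => ?_⟩
  by_contra hcon
  push Not at hcon
  have h1 : ∀ n, sInf (T (s n)) ≤ E y := by
    intro n
    apply csInf_le (hTb _)
    refine ⟨y, hy, ?_, rfl⟩
    have h2 := hxT n
    have h3 := mul_le_mul_of_nonneg_left (dist_triangle (s n).1 x y) hε.le
    rw [mul_add] at h3
    linarith
  have h2 : ∀ n, E (s (n + 1)).1 ≤ (E (s n).1 + E y) / 2 := by
    intro n
    have h3 := hn2 (s n)
    rw [← hs1] at h3
    have h4 := h1 n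
    linarith
  have h3 : e ≤ (e + E y) / 2 := by
    have h4 : Tendsto (fun n => E (s (n + 1)).1) atTop (𝓝 e) :=
      hlim.comp (tendsto_add_atTop_nat 1)
    have h5 : Tendsto (fun n => (E (s n).1 + E y) / 2) atTop (𝓝 ((e + E y) / 2)) :=
      (hlim.add_const _).div_const 2
    exact le_of_tendsto_of_tendsto' h4 h5 h2
  have h4 : 0 ≤ ε * dist x y := mul_nonneg hε.le dist_nonneg
  linarith

end Pool.Agent.Helper957.TB.Tree
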