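import Pool.Agent.Helper957.TB.GD

set_option autoImplicit false

namespace Pool.Agent.Helper957.TB.Tree

open Set Filter Topology BoundedContinuousFunction

variable {p : Seminorm ℝ Y} {C a : ℝ}

/-- one near optimal element -/
theorem bump (hp : ∀ x, p x ≤ C * ‖x‖) (hC : 0 ≤ C) {r q s v : Node} (hrq : r < q) (hqs : q ≤ s)
    (hqv : q ≤ v) {x : Y} {F : Finset Dt} {R A η : ℝ} (hη : 0 < η)
    (hS : Solved p r q x F R η) (hA : KLe p s x F R A)
    (hosc : ∀ t, r ≤ t → t ≤ s → |eP (.nd t) x - eP (.nd s) x| ≤ η) :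
    ∃ y, InW v y ∧ Agr r F x y ∧ (∀ t, q < t → t ≤ v → eP (.nd t) y = R) ∧
      p y ≤ A + (C * (2 * η) + 2 * η) := by
  obtain ⟨y', h1, h2, h3⟩ := hS
  obtain ⟨x', -, hx', -⟩ := exists_CE hrq.le x F
  have hK : KLe p q x' F R (A + C * (2 * η)) := by
    apply (hA.mono hqs (Finset.Subset.refl F) le_rfl).lip hp hC (by linarith)
    · intro t ht
      rcases comparable ht hrq.le with h | h
      · rw [hx'.1.1 t h, sub_self, abs_zero]; linarith
      · rcases h.eq_or_lt with h' | h'
        · subst h'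
          rw [hx'.1.1 _ le_rfl, sub_self, abs_zero]; linarith
        · rw [hx'.2 t h' ht]
          have e1 := hosc r le_rfl (hrq.le.trans hqs)
          have e2 := hosc t h (ht.trans hqs)
          rw [abs_le] at e1 e2 ⊢
          constructor <;> linarith [e1.1, e1.2, e2.1, e2.2]
    · intro d hd
      rw [hx'.1.2 d hd, sub_self, abs_zero]; linarith
    · rw [sub_self, abs_zero]; linarith
  have hL := h3 x' hx' _ hK
  obtain ⟨y, hy, hpy⟩ := hL v hqv (A + (C * (2 * η) + 2 * η)) (by linarith)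
  refine ⟨y, hy.1, h1.trans (hy.2.1.mono hrq.le (Finset.Subset.refl F)), ?_, hpy⟩
  intro t ht1 ht2
  rw [hy.2.2 t ht1 ht2, h2]

theorem not_child_le {top t : Node} {j : ℕ} (h : ¬ t ≤ top) (h' : t ≤ child top j) :
    child top j ≤ t := (eq_child h' h).ge

/-- the inductive sum -/
theorem sums (r : ℕ → Node)
    (hr : ∀ n, r n < r (n + 1)) {s top : Node} (hrs : ∀ n, r n < s) (hst : s ≤ top)
    {x : Y} (hxX : InX top x) (hxc : ∀ t, s ≤ t → t ≤ top → eP (.nd t) x = eP (.nd s) x)
    {R η B A'' : ℝ} (hR : eP (.nd s) x ≤ R) (hη : 0 < η) (hB : 0 ≤ B)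
    (hosc : ∀ t, r 0 ≤ t → t ≤ s → |eP (.nd t) x - eP (.nd s) x| ≤ η)
    (hbump : ∀ (k : ℕ) (F : Finset Dt), ∃ y, InW (child top k) y ∧ Agr (r k) F x y ∧
      (∀ t, r (k + 1) < t → t ≤ child top k → eP (.nd t) y = R) ∧ p y ≤ A'' ∧ ‖y‖ ≤ B ∧
      ‖y - x‖ ≤ B) (k : ℕ) :
    ∃ Z : Y, p Z ≤ k * A'' ∧ InW top Z ∧
      (∀ t, r k < t → t ≤ top → eP (.nd t) Z = k * R) ∧
      (∀ t, |eP (.nd t) (Z - (k : ℝ) • x)| ≤ k * (R - eP (.nd s) x + η) + B) ∧
      (∀ t, ¬ t ≤ top → |eP (.nd t) Z| ≤ B) ∧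
      (∀ j, k ≤ j → ∀ t, child top j ≤ t → eP (.nd t) Z = 0) ∧
      (∀ d, |eP (.ct d) (Z - (k : ℝ) • x)| ≤ k * (R - eP (.nd s) x + η) + 2 * B + 1) := by
  set δ := R - eP (.nd s) x + η with hδ
  have hδ0 : 0 ≤ δ := by rw [hδ]; linarith
  have hmono : Monotone r := monotone_nat_of_le_succ fun n => (hr n).le
  have hmid : ∀ t, r 0 ≤ t → t ≤ top → |R - eP (.nd t) x| ≤ δ := by
    intro t ht1 ht2
    have h1 : |eP (.nd t) x - eP (.nd s) x| ≤ η := by
      rcases comparable ht2 hst with h | h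
      · exact hosc t ht1 h
      · rw [hxc t h ht2, sub_self, abs_zero]; exact hη.le
    rw [abs_le] at h1 ⊢
    rw [hδ]
    constructor <;> linarith [h1.1, h1.2]
  induction k with
  | zero =>
    refine ⟨0, ?_, ?_, ?_, ?_, ?_, ?_, ?_⟩
    · simp
    · intro t _ _; rw [eP_zero]
    · intro t _ _; rw [eP_zero]; simp
    · intro t; simp only [Nat.cast_zero, zero_smul, sub_zero, eP_zero, abs_zero, zero_mul, zero_add]
      exact hB
    · intro t _; rw [eP_zero, abs_zero]; exact hB
    · intro j _ t _; rw [eP_zero]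
    · intro d; simp only [Nat.cast_zero, zero_smul, sub_zero, eP_zero, abs_zero, zero_mul, zero_add]
      linarith
  | succ k ih =>
    obtain ⟨Z, z1, z2, z3, z4, z5, z6, z7⟩ := ih
    have hfin := finite_big (Z - (k : ℝ) • x) (ρ := k * δ + B)
      (add_nonneg (mul_nonneg (Nat.cast_nonneg k) hδ0) hB) one_pos z4
    obtain ⟨y, y1, y2, y3, y4, y5, y6⟩ := hbump k hfin.toFinset
    have hk1 : ((k + 1 : ℕ) : ℝ) = (k : ℝ) + 1 := by push_cast; ring
    have hsplit : ∀ z, eP z (Z + y - ((k + 1 : ℕ) : ℝ) • x) =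
        eP z (Z - (k : ℝ) • x) + eP z (y - x) := by
      intro z
      rw [hk1, eP_sub, eP_sub, eP_sub, eP_smul, eP_smul, eP_add]; ring
    have hrk : r k < r (k + 1) := hr k
    have htopc : ∀ j, top ≤ child top j := fun j => (lt_child top j).le
    have hrtop : ∀ n, r n ≤ top := fun n => (hrs n).le.trans hst
    have z3' : ∀ t, r k < t → t ≤ top → |eP (.nd t) (Z - (k : ℝ) • x)| ≤ k * δ := by
      intro t ht1 ht2
      rw [eP_sub, eP_smul, z3 t ht1 ht2, ← mul_sub, abs_mul, abs_of_nonneg (Nat.cast_nonneg k)]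
      exact mul_le_mul_of_nonneg_left (hmid t ((hmono (Nat.zero_le k)).trans ht1.le) ht2)
        (Nat.cast_nonneg k)
    have hkδ : (k : ℝ) * δ ≤ ((k : ℝ) + 1) * δ := by nlinarith
    have hy0 : ∀ t, ¬ t ≤ top → ¬ child top k ≤ t → eP (.nd t) y = 0 := by
      intro t h1 h2
      apply y1 t
      · intro h3; exact h2 (not_child_le h1 h3)
      · exact h2
    refine ⟨Z + y, ?_, ?_, ?_, ?_, ?_, ?_, ?_⟩
    · rw [hk1]
      have := map_add_le_add p Z y
      have h2 : ((k : ℝ) + 1) * A'' = k * A'' + A'' := by ring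
      linarith
    · exact z2.add (y1.mono (htopc k))
    · intro t ht1 ht2
      rw [eP_add, z3 t (hrk.trans ht1) ht2, y3 t ht1 (ht2.trans (htopc k)), hk1]; ring
    · intro t
      rw [hsplit, hk1]
      by_cases htop : t ≤ top
      · rcases comparable htop (hrtop k) with h | h
        · rw [eP_sub (.nd t) y x, y2.1 t h, sub_self, add_zero]
          exact (z4 t).trans (by linarith)
        · rcases h.eq_or_lt with h' | h'
          · subst h'
            rw [eP_sub _ y x, y2.1 _ le_rfl, sub_self, add_zero]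
            exact (z4 _).trans (by linarith)
          · rcases comparable htop (hrtop (k + 1)) with h2 | h2
            · have e1 := z3' t h' htop
              have e2 := (abs_eP_le (.nd t) (y - x)).trans y6
              refine (abs_add_le _ _).trans ?_
              linarith
            · rcases h2.eq_or_lt with h3 | h3
              · have e1 := z3' t h' htop
                have e2 := (abs_eP_le (.nd t) (y - x)).trans y6
                refine (abs_add_le _ _).trans ?_
                linarith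
              · have e1 := z3' t h' htop
                have e2 : |eP (.nd t) (y - x)| ≤ δ := by
                  rw [eP_sub, y3 t h3 (htop.trans (htopc k))]
                  exact hmid t ((hmono (Nat.zero_le (k + 1))).trans h3.le) htop
                refine (abs_add_le _ _).trans ?_
                have : ((k : ℝ) + 1) * δ = k * δ + δ := by ring
                linarith
      · have hx0 : eP (.nd t) x = 0 := hxX t htop
        rw [eP_sub, eP_sub, eP_smul, hx0]
        simp only [mul_zero, sub_zero]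
        have hpos : 0 ≤ ((k : ℝ) + 1) * δ := mul_nonneg (by positivity) hδ0
        by_cases hc : child top k ≤ t
        · rw [z6 k le_rfl t hc, zero_add]
          exact ((abs_eP_le (.nd t) y).trans y5).trans (by linarith)
        · rw [hy0 t htop hc, add_zero]
          exact (z5 t htop).trans (by linarith)
    · intro t htop
      rw [eP_add]
      by_cases hc : child top k ≤ t
      · rw [z6 k le_rfl t hc, zero_add]
        exact (abs_eP_le (.nd t) y).trans y5
      · rw [hy0 t htop hc, add_zero]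
        exact z5 t htop
    · intro j hj t ht
      have hjk : j ≠ k := by omega
      have htop : ¬ t ≤ top := fun h => absurd (ht.trans h) (not_le_of_gt (lt_child top j))
      rw [eP_add, z6 j (by omega) t ht, zero_add]
      apply hy0 t htop
      intro hc
      exact hjk (child_inj ht hc)
    · intro d
      rw [hsplit, hk1]
      have hpos : (k : ℝ) * δ ≤ ((k : ℝ) + 1) * δ := hkδ
      by_cases hd : d ∈ hfin.toFinset
      · rw [eP_sub _ y x, y2.2 d hd, sub_self, add_zero]
        exact (z7 d).trans (by linarith)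
      · have hd' : |eP (.ct d) (Z - (k : ℝ) • x)| ≤ k * δ + B + 1 := by
          rw [Set.Finite.mem_toFinset] at hd
          exact not_lt.1 hd
        have e2 := (abs_eP_le (.ct d) (y - x)).trans y6
        refine (abs_add_le _ _).trans ?_
        linarith

theorem upper (hp : ∀ x, p x ≤ C * ‖x‖) (hC : 0 ≤ C) (ha : 0 < a) (hpa : ∀ x, a * ‖x‖ ≤ p x)
    (r : ℕ → Node) (hr : ∀ n, r n < r (n + 1))
    (hP1 : ∀ n (x : Y) (F : Finset Dt) (R η : ℝ), 0 < η → Solved p (r n) (r (n + 1)) x F R η)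
    {s top : Node} (hrs : ∀ n, r n < s) (hsup : ∀ t, t < s → ∃ n, t ≤ r n) (hst : s ≤ top)
    {x : Y} (hxX : InX top x) (hxc : ∀ t, s ≤ t → t ≤ top → eP (.nd t) x = eP (.nd s) x)
    {R A' : ℝ} (hR : eP (.nd s) x ≤ R) (hA : ∀ F, KLe p s x F R A') {e : ℝ} (he : 0 < e) :
    ∃ y, InX top y ∧ (∀ t, s ≤ t → t ≤ top → eP (.nd t) y = R) ∧ p y ≤ A' + e ∧
      ‖y - x‖ ≤ R - eP (.nd s) x + e := by
  classical
  obtain ⟨η0, hη0, hCη0⟩ := small_eta hC (show 0 < e / 8 by positivity)
  set η := min η0 (e / 8) with hη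
  have hηpos : 0 < η := lt_min hη0 (by positivity)
  have hη1 : η ≤ e / 8 := min_le_right _ _
  have hη2 : C * η ≤ e / 8 := (mul_le_mul_of_nonneg_left (min_le_left _ _) hC).trans hCη0
  obtain ⟨n0, hn0⟩ := cont_sup r hr hrs hsup x hηpos
  set A'' := A' + (C * (2 * η) + 2 * η) with hA''
  have hA''le : A'' ≤ A' + e / 2 := by
    rw [hA'']
    have : C * (2 * η) = 2 * (C * η) := by ring
    linarith
  set B := A'' / a + ‖x‖ with hB
  set r' : ℕ → Node := fun n => r (n0 + 1 + n) with hr'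
  have hosc : ∀ t, r' 0 ≤ t → t ≤ s → |eP (.nd t) x - eP (.nd s) x| ≤ η := by
    intro t ht1 ht2
    exact hn0 t ((hr n0).trans_le ht1) ht2
  have hmono' : Monotone r' := monotone_nat_of_le_succ fun n => (hr _).le
  have hbump : ∀ (k : ℕ) (F : Finset Dt), ∃ y, InW (child top k) y ∧ Agr (r' k) F x y ∧
      (∀ t, r' (k + 1) < t → t ≤ child top k → eP (.nd t) y = R) ∧ p y ≤ A'' ∧ ‖y‖ ≤ B ∧
      ‖y - x‖ ≤ B := by
    intro k F
    obtain ⟨y, h1, h2, h3, h4⟩ := bump hp hC (r := r' k) (q := r' (k + 1)) (s := s)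
      (v := child top k) (hr _) (hrs _).le (((hrs _).le.trans hst).trans (lt_child top k).le)
      hηpos (hP1 (n0 + 1 + k) x F R η hηpos) (hA F)
      (fun t ht1 ht2 => hosc t ((hmono' (Nat.zero_le k)).trans ht1) ht2)
    have h5 : ‖y‖ ≤ A'' / a := by
      rw [le_div_iff₀ ha, mul_comm]
      exact (hpa y).trans h4
    refine ⟨y, h1, h2, h3, h4, ?_, ?_⟩
    · rw [hB]; linarith [norm_nonneg x]
    · rw [hB]; exact (norm_sub_le y x).trans (by linarith)
  have hB0 : 0 ≤ B := by
    obtain ⟨y, _, _, _, _, h5, _⟩ := hbump 0 ∅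
    exact (norm_nonneg y).trans h5
  obtain ⟨N, hN⟩ := exists_nat_gt (max ((3 * B + 2) / (e / 8)) (C * (B + 1) / (e / 8)))
  have he8 : 0 < e / 8 := by positivity
  have hN1 : (3 * B + 2) / (e / 8) < N := (le_max_left _ _).trans_lt hN
  have hN2 : C * (B + 1) / (e / 8) < N := (le_max_right _ _).trans_lt hN
  have hNpos : (0 : ℝ) < N := by
    have : 0 < (3 * B + 2) / (e / 8) := by positivity
    linarith
  rw [div_lt_iff₀ he8] at hN1 hN2
  obtain ⟨Z, z1, z2, z3, z4, z5, z6, z7⟩ := sums r' (fun n => hr _) (fun n => hrs _) hst hxX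
    hxc hR hηpos hB0 hosc hbump N
  set δ := R - eP (.nd s) x + η with hδ
  set Z0 : Y := (1 / (N : ℝ)) • Z with hZ0
  set w : Y := Z0 - mulY (chiT top) Z0 with hw
  have hinv : 0 < 1 / (N : ℝ) := by positivity
  have w1 : ∀ t, t ≤ top → eP (.nd t) w = 0 := by
    intro t ht
    rw [hw, eP_sub, eP_mulY, eP_nd_chiT, if_pos ht]; ring
  have w2 : ∀ t, ¬ t ≤ top → eP (.nd t) w = eP (.nd t) Z0 := by
    intro t ht
    rw [hw, eP_sub, eP_mulY, eP_nd_chiT, if_neg ht]; ring
  have w3 : ∀ t, |eP (.nd t) w| ≤ B / N := by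
    intro t
    by_cases ht : t ≤ top
    · rw [w1 t ht, abs_zero]; positivity
    · rw [w2 t ht, hZ0, eP_smul, abs_mul, abs_of_pos hinv]
      have h1 := mul_le_mul_of_nonneg_left (z5 t ht) hinv.le
      have h2 : 1 / (N : ℝ) * B = B / N := by ring
      linarith
  obtain ⟨G, hG⟩ : ∃ G : Finset Dt, ∀ d, d ∉ G → |eP (.ct d) w| ≤ B / N + 1 / N := by
    have hfin := finite_big w (ρ := B / N) (by positivity) hinv w3
    refine ⟨hfin.toFinset, fun d hd => ?_⟩
    rw [Set.Finite.mem_toFinset] at hd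
    exact not_lt.1 hd
  set y : Y := mulY (chiT top) Z0 + fs G (fun d => eP (.ct d) w) with hy
  have hsub : Z0 - y = w - fs G (fun d => eP (.ct d) w) := by
    rw [hy]
    generalize fs G (fun d => eP (.ct d) w) = f
    rw [hw]; abel
  have hnorm1 : ‖Z0 - y‖ ≤ B / N + 1 / N := by
    rw [hsub]
    apply normY_le (by positivity)
    intro q
    cases q with
    | nd t =>
      rw [eP_sub, eP_nd_fs, sub_zero]
      exact (w3 t).trans (by linarith)
    | ct d =>
      by_cases hd : d ∈ G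
      · rw [eP_sub, eP_ct_fs _ _ hd, sub_self, abs_zero]; positivity
      · rw [eP_sub, eP_ct_fs_not _ _ hd, sub_zero]; exact hG d hd
  have hnorm2 : ‖Z0 - x‖ ≤ δ + (2 * B + 1) / N := by
    have hZx : Z0 - x = (1 / (N : ℝ)) • (Z - (N : ℝ) • x) := by
      rw [hZ0, smul_sub, smul_smul, one_div, inv_mul_cancel₀ hNpos.ne', one_smul]
    have hδ0 : 0 ≤ δ := by rw [hδ]; linarith
    have hrhs : (1 / (N : ℝ)) * (N * δ + 2 * B + 1) = δ + (2 * B + 1) / N := by
      field_simp
      ring
    rw [hZx, ← hrhs]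
    apply normY_le (by positivity)
    intro q
    rw [eP_smul, abs_mul, abs_of_pos hinv]
    apply mul_le_mul_of_nonneg_left _ hinv.le
    cases q with
    | nd t => exact (z4 t).trans (by linarith)
    | ct d => exact z7 d
  refine ⟨y, ?_, ?_, ?_, ?_⟩
  · intro t ht
    rw [hy, eP_add, eP_nd_fs, add_zero, eP_mulY, eP_nd_chiT, if_neg ht, zero_mul]
  · intro t ht1 ht2
    rw [hy, eP_add, eP_nd_fs, add_zero, eP_mulY, eP_nd_chiT, if_pos ht2, one_mul, hZ0, eP_smul,
      z3 t ((hrs _).trans_le ht1) ht2, ← mul_assoc, one_div, inv_mul_cancel₀ hNpos.ne', one_mul]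
  · have h1 : p y ≤ p Z0 + p (y - Z0) := by
      have := map_add_le_add p Z0 (y - Z0)
      rwa [add_sub_cancel] at this
    have h2 : p Z0 ≤ A'' := by
      rw [hZ0, map_smul_eq_mul, Real.norm_eq_abs, abs_of_pos hinv]
      calc 1 / (N : ℝ) * p Z ≤ 1 / (N : ℝ) * (N * A'') := mul_le_mul_of_nonneg_left z1 hinv.le
        _ = A'' := by field_simp
    have h3 : p (y - Z0) ≤ C * (B / N + 1 / N) := by
      refine (hp _).trans (mul_le_mul_of_nonneg_left ?_ hC)
      rw [norm_sub_rev]; exact hnorm1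
    have h4 : C * (B / N + 1 / N) ≤ e / 8 := by
      rw [← add_div, ← mul_div_assoc, div_le_iff₀ hNpos]
      linarith
    linarith
  · have h1 : ‖y - x‖ ≤ ‖y - Z0‖ + ‖Z0 - x‖ := norm_sub_le_norm_sub_add_norm_sub _ _ _
    rw [norm_sub_rev y Z0] at h1
    have h2 : B / N + 1 / N + (2 * B + 1) / N = (3 * B + 2) / N := by ring
    have h3 : (3 * B + 2) / N ≤ e / 8 := by
      rw [div_le_iff₀ hNpos]; linarith
    have h4 : δ = R - eP (.nd s) x + η := hδ
    linarith

end Pool.Agent.Helper957.TB.Tree
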