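import Pool.Agent.Helper957.TB.GE

set_option autoImplicit false

namespace Pool.Agent.Helper957.TB.Tree

open Set Filter Topology BoundedContinuousFunction

variable {p : Seminorm ℝ Y} {C a : ℝ}

/-- increments of indicators -/
noncomputable def hd (z : ℕ → Node) (i : ℕ) : Y := chiT (z (i + 1)) - chiT (z i)

theorem hd_low {z : ℕ → Node} {i : ℕ} (hz : z i ≤ z (i + 1)) {t : Node} (h : t ≤ z i) :
    eP (.nd t) (hd z i) = 0 := by
  rw [hd, eP_sub, eP_nd_chiT, eP_nd_chiT, if_pos h, if_pos (h.trans hz), sub_self]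

theorem hd_mid {z : ℕ → Node} {i : ℕ} {t : Node} (h : z i < t) (h' : t ≤ z (i + 1)) :
    eP (.nd t) (hd z i) = 1 := by
  rw [hd, eP_sub, eP_nd_chiT, eP_nd_chiT, if_pos h', if_neg (not_le_of_gt h), sub_zero]

theorem hd_inX {z : ℕ → Node} {i : ℕ} (hz : z i ≤ z (i + 1)) : InX (z (i + 1)) (hd z i) := by
  intro t ht
  rw [hd, eP_sub, eP_nd_chiT, eP_nd_chiT, if_neg ht, if_neg (fun h => ht (h.trans hz)), sub_self]

theorem hd_sum (z : ℕ → Node) (m : ℕ) : ∑ i : Fin m, hd z i = chiT (z m) - chiT (z 0) := by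
  rw [Fin.sum_univ_eq_sum_range (fun i => hd z i) m]
  exact Finset.sum_range_sub (fun i => chiT (z i)) m

theorem hd_sum_norm (z : ℕ → Node) (m : ℕ) : ‖∑ i : Fin m, hd z i‖ ≤ 1 := by
  classical
  rw [hd_sum]
  apply normY_le zero_le_one
  intro q
  rw [eP_sub]
  cases q with
  | nd t =>
    rw [eP_nd_chiT, eP_nd_chiT]
    split_ifs <;> norm_num
  | ct d =>
    rw [eP_ct_chiT, eP_ct_chiT]
    split_ifs <;> norm_num

theorem lower (hp : ∀ x, p x ≤ C * ‖x‖) (hC : 0 ≤ C) (z : ℕ → Node)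
    (hz : ∀ i, z i < z (i + 1))
    (hP2 : ∀ i (y : Y) (F : Finset Dt), InW (z (i + 1)) y →
      (∀ t, z i < t → t ≤ z (i + 1) → eP (.nd t) y = eP (.nd (z (i + 1))) y) →
      Le p (z (i + 1)) y F (p y))
    {m : ℕ} (hm : 0 < m) {x : Y} (hxX : InX (z m) x)
    (hxc : ∀ t, z 0 ≤ t → t ≤ z m → eP (.nd t) x = eP (.nd (z 0)) x) {θ : ℝ} (hθ : 0 < θ)
    (F : Finset Dt) :
    KLe p (z 0) x F (eP (.nd (z 0)) x + θ)
      ((1 / (m : ℝ)) * ∑ i : Fin m, p (x + θ • hd z i) + C * (θ / m)) := by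
  have hmono : StrictMono z := strictMono_nat_of_lt_succ hz
  have hm' : (0 : ℝ) < m := Nat.cast_pos.2 hm
  set c := eP (.nd (z 0)) x with hc
  have hi1 : ∀ i : Fin m, z (i.1 + 1) ≤ z m := fun i => hmono.monotone i.2
  have h0i : ∀ i : Fin m, z 0 ≤ z (i.1 + 1) := fun i => hmono.monotone (Nat.zero_le _)
  have h0i' : ∀ i : Fin m, z 0 ≤ z i.1 := fun i => hmono.monotone (Nat.zero_le _)
  have hval : ∀ (i : Fin m) (t : Node), z i.1 < t → t ≤ z (i.1 + 1) →
      eP (.nd t) (x + θ • hd z i) = c + θ := by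
    intro i t h1 h2
    rw [eP_add, eP_smul, hd_mid h1 h2, hxc t ((h0i' i).trans h1.le) (h2.trans (hi1 i))]; ring
  have hLe : ∀ i : Fin m, Le p (z (i.1 + 1)) (x + θ • hd z i) F (p (x + θ • hd z i)) := by
    intro i
    apply hP2
    · exact (hxX.inW_of_le (hi1 i)).add ((hd_inX (hz i.1).le).inW.smul θ)
    · intro t h1 h2
      rw [hval i t h1 h2, hval i _ (hz i.1) le_rfl]
  have hex : ∀ i : Fin m, ∃ y, InX (z m) y ∧ CE (z (i.1 + 1)) (z m) (x + θ • hd z i) F y := by
    intro i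
    obtain ⟨y, h1, h2, -⟩ := exists_CE (hi1 i) (x + θ • hd z i) F
    exact ⟨y, h1, h2⟩
  choose y hy1 hy2 using hex
  have hLe2 : ∀ i : Fin m, Le p (z m) (y i) F (p (x + θ • hd z i)) := fun i =>
    (hLe i).ce (hi1 i) (hy2 i)
  have hK : KLe p (z 0) (x + (θ / m) • ∑ i : Fin m, hd z i) F (c + θ)
      ((1 / (m : ℝ)) * ∑ i : Fin m, p (x + θ • hd z i)) := by
    intro A' hA'
    refine ⟨z m, hmono hm, (1 / (m : ℝ)) • ∑ i, y i, ⟨?_, ?_⟩, ?_, ?_⟩
    · intro t ht
      have h1 : ∀ i : Fin m, eP (.nd t) (y i) = eP (.nd t) x + θ * eP (.nd t) (hd z i) := by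
        intro i
        rw [(hy2 i).1.1 t (ht.trans (h0i i)), eP_add, eP_smul]
      rw [eP_smul, map_sum, Finset.sum_congr rfl fun i _ => h1 i, Finset.sum_add_distrib,
        Finset.sum_const, Finset.card_univ, Fintype.card_fin, nsmul_eq_mul, ← Finset.mul_sum,
        eP_add, eP_smul, map_sum]
      field_simp
    · intro d hdF
      have h1 : ∀ i : Fin m, eP (.ct d) (y i) = eP (.ct d) x + θ * eP (.ct d) (hd z i) := by
        intro i
        rw [(hy2 i).1.2 d hdF, eP_add, eP_smul]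
      rw [eP_smul, map_sum, Finset.sum_congr rfl fun i _ => h1 i, Finset.sum_add_distrib,
        Finset.sum_const, Finset.card_univ, Fintype.card_fin, nsmul_eq_mul, ← Finset.mul_sum,
        eP_add, eP_smul, map_sum]
      field_simp
    · have h1 : ∀ i : Fin m, eP (.nd (z m)) (y i) = c + θ := by
        intro i
        rw [(hy2 i).top (hi1 i), hval i _ (hz i.1) le_rfl]
      rw [eP_smul, map_sum, Finset.sum_congr rfl fun i _ => h1 i, Finset.sum_const,
        Finset.card_univ, Fintype.card_fin, nsmul_eq_mul]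
      field_simp
    · exact (Le.avg hm y _ hLe2).mono hA'.le (Finset.Subset.refl F)
  have hsmall : ∀ q, |eP q x - eP q (x + (θ / m) • ∑ i : Fin m, hd z i)| ≤ θ / m := by
    intro q
    rw [eP_add, eP_smul]
    have h1 := (abs_eP_le q (∑ i : Fin m, hd z i)).trans (hd_sum_norm z m)
    have h2 : 0 < θ / m := by positivity
    have h3 : eP q x - (eP q x + θ / m * eP q (∑ i : Fin m, hd z i)) =
        - (θ / m * eP q (∑ i : Fin m, hd z i)) := by ring
    rw [h3, abs_neg, abs_mul, abs_of_pos h2]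
    nlinarith [abs_nonneg (eP q (∑ i : Fin m, hd z i))]
  exact hK.lip hp hC (by positivity) (fun t _ => hsmall _) (fun d _ => hsmall _)
    (by rw [sub_self, abs_zero]; positivity)

theorem no_gateaux (hp : ∀ x, p x ≤ C * ‖x‖) (hC : 0 ≤ C) (ha : 0 < a)
    (hpa : ∀ x, a * ‖x‖ ≤ p x)
    (hG : ∀ x : Y, x ≠ 0 → ∃ φ : Y →L[ℝ] ℝ, ∀ h : Y,
      HasDerivAt (fun t : ℝ => p (x + t • h)) (φ h) 0) : False := by
  classical
  -- the sequence r
  choose nx hnx1 hnx2 using P1 (p := p) hp hC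
  let t0 : Node := ⟨Classical.arbitrary W, fun _ => 0, fun _ _ => rfl⟩
  let r : ℕ → Node := fun n => Nat.rec t0 (fun _ q => nx q) n
  have hr1 : ∀ n, r (n + 1) = nx (r n) := fun n => rfl
  have hr : ∀ n, r n < r (n + 1) := fun n => by rw [hr1]; exact hnx1 _
  have hrP : ∀ n (x : Y) (F : Finset Dt) (R η : ℝ), 0 < η →
      Solved p (r n) (r (n + 1)) x F R η := fun n => by rw [hr1]; exact hnx2 _
  obtain ⟨s, hrs, hsup⟩ := exists_sup r hr
  -- the nodes z
  choose nz hnz1 hnz2 using P2 (p := p) hp hC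
  let z : ℕ → Node := fun n => Nat.rec s (fun _ q => nz q) n
  have hz0 : z 0 = s := rfl
  have hz1 : ∀ n, z (n + 1) = nz (z n) := fun n => rfl
  have hz : ∀ n, z n < z (n + 1) := fun n => by rw [hz1]; exact hnz1 _
  have hzP : ∀ i (y : Y) (F : Finset Dt), InW (z (i + 1)) y →
      (∀ t, z i < t → t ≤ z (i + 1) → eP (.nd t) y = eP (.nd (z (i + 1))) y) →
      Le p (z (i + 1)) y F (p y) := fun i => by rw [hz1]; exact hnz2 _
  obtain ⟨m, hm⟩ := exists_nat_gt (8 * C / a)
  have hm' : (0 : ℝ) < m := lt_of_le_of_lt (by positivity) hm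
  have hm0 : 0 < m := Nat.cast_pos.1 hm'
  have hmC : 2 * (C / m) < a / 4 := by
    rw [div_lt_iff₀ ha] at hm
    rw [← mul_div_assoc, div_lt_iff₀ hm']
    linarith
  have hmono : StrictMono z := strictMono_nat_of_lt_succ hz
  have hst : s ≤ z m := by rw [← hz0]; exact hmono.monotone (Nat.zero_le _)
  -- Ekeland
  have hpcont : Continuous p := by
    have : LipschitzWith C.toNNReal p := by
      apply LipschitzWith.of_dist_le_mul
      intro x y
      rw [Real.dist_eq, dist_eq_norm, Real.coe_toNNReal C hC]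
      exact (abs_sub_map_le_sub p x y).trans (hp _)
    exact this.continuous
  have hecont : ∀ q, Continuous (eP q) := fun q => (eP q).continuous
  obtain ⟨x, hxS, hxE⟩ := ekeland
    ({x : Y | (∀ t, ¬ t ≤ z m → eP (.nd t) x = 0) ∧
      (∀ t, s ≤ t → t ≤ z m → eP (.nd t) x = eP (.nd s) x) ∧ 1 ≤ eP (.nd s) x})
    (by
      simp only [Set.ofPred_and, Set.ofPred_forall]
      refine IsClosed.inter ?_ (IsClosed.inter ?_ ?_)
      · exact isClosed_iInter fun t => isClosed_iInter fun _ =>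
          isClosed_eq (hecont _) continuous_const
      · exact isClosed_iInter fun t => isClosed_iInter fun _ => isClosed_iInter fun _ =>
          isClosed_eq (hecont _) (hecont _)
      · exact isClosed_le continuous_const (hecont _))
    (chiT (z m))
    (by
      refine ⟨fun t ht => ?_, fun t _ ht => ?_, ?_⟩
      · rw [eP_nd_chiT, if_neg ht]
      · rw [eP_nd_chiT, eP_nd_chiT, if_pos ht, if_pos hst]
      · rw [eP_nd_chiT, if_pos hst])
    (fun x => p x - a / 2 * eP (.nd s) x)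
    (hpcont.sub ((hecont _).const_mul _)) 0
    (fun x hx => by
      have h1 := hpa x
      have h2 : eP (.nd s) x ≤ ‖x‖ := (le_abs_self _).trans (abs_eP_le _ x)
      have h3 : 1 ≤ eP (.nd s) x := hx.2.2
      nlinarith)
    (show 0 < a / 4 by positivity)
  obtain ⟨hxX, hxc, hx1⟩ := hxS
  have hxX' : InX (z m) x := hxX
  have hx0 : x ≠ 0 := by
    intro h
    rw [h, eP_zero] at hx1
    linarith
  set c := eP (.nd s) x with hc
  obtain ⟨φ, hφ⟩ := hG x hx0
  -- slope inequality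
  have hslope : ∀ θ : ℝ, 0 < θ → p x + (a / 4 - C / m) * θ ≤
      (1 / (m : ℝ)) * ∑ i : Fin m, p (x + θ • hd z i) := by
    intro θ hθ
    set Aθ := (1 / (m : ℝ)) * ∑ i : Fin m, p (x + θ • hd z i) with hAθ
    have hKL : ∀ F, KLe p s x F (c + θ) (Aθ + C * (θ / m)) := fun F =>
      lower hp hC z hz hzP hm0 hxX' hxc hθ F
    have hkey : ∀ e : ℝ, 0 < e → p x + (a / 4) * θ ≤ Aθ + C * (θ / m) + (1 + a / 4) * e := by
      intro e he
      obtain ⟨y, y1, y2, y3, y4⟩ := upper hp hC ha hpa r hr hrP hrs hsup hst hxX' hxc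
        (show eP (.nd s) x ≤ c + θ by rw [← hc]; linarith) hKL he
      have hys : eP (.nd s) y = c + θ := y2 s le_rfl hst
      have h1 := hxE y ⟨y1, fun t h1 h2 => by rw [y2 t h1 h2, hys], by rw [hys]; linarith⟩
      rw [hys, dist_comm, dist_eq_norm] at h1
      have h2 : a / 4 * ‖y - x‖ ≤ a / 4 * (θ + e) := by
        apply mul_le_mul_of_nonneg_left _ (by positivity)
        rw [← hc] at y4
        linarith
      linarith
    have h3 : p x + (a / 4) * θ ≤ Aθ + C * (θ / m) := by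
      apply le_of_forall_pos_le_add
      intro e he
      have h4 := hkey (e / (1 + a / 4)) (by positivity)
      have h5 : (1 + a / 4) * (e / (1 + a / 4)) = e := by field_simp
      linarith
    have h4 : C * (θ / m) = C / m * θ := by ring
    linarith
  -- derivative
  have hder : HasDerivAt (fun θ : ℝ => (1 / (m : ℝ)) * ∑ i : Fin m, p (x + θ • hd z i))
      ((1 / (m : ℝ)) * ∑ i : Fin m, φ (hd z i)) 0 := by
    apply HasDerivAt.const_mul
    exact HasDerivAt.fun_sum fun i _ => hφ (hd z i)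
  have hval0 : (1 / (m : ℝ)) * ∑ i : Fin m, p (x + (0 : ℝ) • hd z i) = p x := by
    simp only [zero_smul, add_zero, Finset.sum_const, Finset.card_univ, Fintype.card_fin,
      nsmul_eq_mul]
    field_simp
  have hge : a / 4 - C / m ≤ (1 / (m : ℝ)) * ∑ i : Fin m, φ (hd z i) := by
    have h1 := (hasDerivAt_iff_tendsto_slope_zero.1 hder).mono_left
      (nhdsWithin_mono (0 : ℝ) (fun t (ht : t ∈ Set.Ioi (0 : ℝ)) =>
        (ne_of_gt ht : t ∈ ({0}ᶜ : Set ℝ))))
    apply ge_of_tendsto h1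
    filter_upwards [self_mem_nhdsWithin] with θ hθ
    have hθ' : (0 : ℝ) < θ := hθ
    rw [zero_add, hval0, smul_eq_mul]
    have h2 := hslope θ hθ'
    rw [← div_eq_inv_mul, le_div_iff₀ hθ']
    linarith
  have hφle : ∀ h : Y, φ h ≤ C * ‖h‖ := by
    intro h
    have h1 := (hasDerivAt_iff_tendsto_slope_zero.1 (hφ h)).mono_left
      (nhdsWithin_mono (0 : ℝ) (fun t (ht : t ∈ Set.Ioi (0 : ℝ)) =>
        (ne_of_gt ht : t ∈ ({0}ᶜ : Set ℝ))))
    apply le_of_tendsto h1
    filter_upwards [self_mem_nhdsWithin] with θ hθ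
    have hθ' : (0 : ℝ) < θ := hθ
    rw [zero_add, zero_smul, add_zero, smul_eq_mul, ← div_eq_inv_mul, div_le_iff₀ hθ']
    have h2 := map_add_le_add p x (θ • h)
    rw [map_smul_eq_mul, Real.norm_eq_abs, abs_of_pos hθ'] at h2
    have h3 := mul_le_mul_of_nonneg_left (hp h) hθ'.le
    linarith
  have hsum : ∑ i : Fin m, φ (hd z i) ≤ C := by
    rw [← map_sum]
    refine (hφle _).trans ?_
    have := mul_le_mul_of_nonneg_left (hd_sum_norm z m) hC
    linarith
  have hfin : (1 / (m : ℝ)) * ∑ i : Fin m, φ (hd z i) ≤ C / m := by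
    have h1 := mul_le_mul_of_nonneg_left hsum (show (0 : ℝ) ≤ 1 / m by positivity)
    have h2 : 1 / (m : ℝ) * C = C / m := by ring
    linarith
  linarith

end Pool.Agent.Helper957.TB.Tree
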