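import Pool.Agent.Helper957.TB.GF
import Mathlib.Analysis.InnerProductSpace.l2Space

set_option autoImplicit false

namespace Pool.Agent.Helper957.TB.Tree

open Set Filter Topology

/-- the compact space: nodes, codes and the point at infinity -/
def KK : Type := Option Pt

/-- membership in the basic clopen sets -/
def mem0 : Node ⊕ Dt → KK → Prop
  | Sum.inl t, some (.nd s) => s ≤ t
  | Sum.inl t, some (.ct d) => d ∈ AA t
  | Sum.inl _, none => False
  | Sum.inr _, some (.nd _) => False
  | Sum.inr d, some (.ct d') => d' = d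
  | Sum.inr _, none => False

/-- points of the compact space -/
def kn (t : Node) : KK := some (.nd t)
def kc (d : Dt) : KK := some (.ct d)
def ki : KK := none

theorem mem0_kn (t s : Node) : mem0 (Sum.inl t) (kn s) ↔ s ≤ t := Iff.rfl
theorem mem0_kc (t : Node) (d : Dt) : mem0 (Sum.inl t) (kc d) ↔ d ∈ AA t := Iff.rfl
theorem mem0_ki (g : Node ⊕ Dt) : ¬ mem0 g ki := by
  intro h; cases g <;> exact h
theorem mem0_kn' (d : Dt) (s : Node) : ¬ mem0 (Sum.inr d) (kn s) := fun h => h
theorem mem0_kc' (d d' : Dt) : mem0 (Sum.inr d) (kc d') ↔ d' = d := Iff.rfl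

theorem KK_cases (z : KK) : (∃ t, z = kn t) ∨ (∃ d, z = kc d) ∨ z = ki := by
  rcases z with _ | ⟨t | d⟩
  · exact Or.inr (Or.inr rfl)
  · exact Or.inl ⟨t, rfl⟩
  · exact Or.inr (Or.inl ⟨d, rfl⟩)

open Classical in
/-- the characteristic map -/
noncomputable def PhiK (z : KK) : Node ⊕ Dt → Bool := fun g => decide (mem0 g z)

noncomputable instance : TopologicalSpace KK := TopologicalSpace.induced PhiK inferInstance

theorem PhiK_cont : Continuous PhiK := continuous_induced_dom

theorem PhiK_eq {g : Node ⊕ Dt} {x y : KK} : PhiK x g = PhiK y g ↔ (mem0 g x ↔ mem0 g y) := by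
  classical
  unfold PhiK
  exact decide_eq_decide

theorem kn_ne_kc (t : Node) (d : Dt) : kn t ≠ kc d := by
  intro h
  have h1 : Pt.nd t = Pt.ct d := Option.some_injective _ h
  cases h1

theorem kc_inj {d d' : Dt} (h : kc d = kc d') : d = d' := by
  have h1 : Pt.ct d = Pt.ct d' := Option.some_injective _ h
  cases h1; rfl

theorem mem0_inr {d : Dt} {z : KK} (h : mem0 (Sum.inr d) z) : z = kc d := by
  rcases KK_cases z with ⟨t, rfl⟩ | ⟨d', rfl⟩ | rfl
  · exact absurd h (mem0_kn' d t)
  · rw [(mem0_kc' d d').1 h]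
  · exact absurd h (mem0_ki _)

theorem PhiK_inj : Function.Injective PhiK := by
  intro x y hxy
  have h : ∀ g, mem0 g x ↔ mem0 g y := fun g => PhiK_eq.1 (congrFun hxy g)
  rcases KK_cases x with ⟨t, rfl⟩ | ⟨d, rfl⟩ | rfl
  · rcases KK_cases y with ⟨s, rfl⟩ | ⟨d', rfl⟩ | rfl
    · have h1 : t ≤ s := (h (Sum.inl s)).2 (le_refl s)
      have h2 : s ≤ t := (h (Sum.inl t)).1 (le_refl t)
      rw [le_antisymm h1 h2]
    · exact absurd ((h (Sum.inr d')).2 rfl) (mem0_kn' d' t)
    · exact absurd ((h (Sum.inl t)).1 (le_refl t)) (mem0_ki _)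
  · exact (mem0_inr ((h (Sum.inr d)).1 rfl)).symm
  · rcases KK_cases y with ⟨s, rfl⟩ | ⟨d', rfl⟩ | rfl
    · exact absurd ((h (Sum.inl s)).2 (le_refl s)) (mem0_ki _)
    · exact absurd ((h (Sum.inr d')).2 rfl) (mem0_ki _)
    · rfl

instance : T2Space KK := T2Space.of_injective_continuous PhiK_inj PhiK_cont

theorem le_nhds_K (f : Filter KK) (x : KK) (h : ∀ g, ∀ᶠ y in f, (mem0 g y ↔ mem0 g x)) :
    f ≤ 𝓝 x := by
  rw [nhds_induced, ← Filter.tendsto_iff_comap, tendsto_pi_nhds]
  intro g
  rw [nhds_discrete, Filter.tendsto_pure]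
  filter_upwards [h g] with y hy
  exact PhiK_eq.2 hy

theorem codes_not_mem (f : Ultrafilter KK) (h : ∀ d, {z | mem0 (Sum.inr d) z} ∉ f) {E : Set Dt}
    (hE : E.Finite) : kc '' E ∉ f := by
  have h1 : kc '' E = ⋃ d ∈ E, {z | mem0 (Sum.inr d) z} := by
    ext z
    simp only [Set.mem_image, Set.mem_iUnion, Set.mem_ofPred_eq]
    constructor
    · rintro ⟨d, hd, rfl⟩; exact ⟨d, hd, rfl⟩
    · rintro ⟨d, hd, hz⟩; exact ⟨d, hd, (mem0_inr hz).symm⟩
  rw [h1, Ultrafilter.finite_biUnion_mem_iff hE]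
  rintro ⟨d, -, hd⟩
  exact h d hd

instance : CompactSpace KK := by
  constructor
  rw [isCompact_iff_ultrafilter_le_nhds]
  intro f _
  by_cases hA : ∃ d, {z | mem0 (Sum.inr d) z} ∈ f
  · obtain ⟨d, hd⟩ := hA
    refine ⟨kc d, Set.mem_univ _, le_nhds_K _ _ fun g => ?_⟩
    filter_upwards [hd] with y hy
    rw [mem0_inr hy]
  · push Not at hA
    by_cases hB : ∃ t, {z | mem0 (Sum.inl t) z} ∈ f
    · obtain ⟨t, ht, hmin⟩ := WellFounded.has_min (wellFounded_lt (α := Node))
        {t | {z | mem0 (Sum.inl t) z} ∈ f} hB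
      refine ⟨kn t, Set.mem_univ _, le_nhds_K _ _ fun g => ?_⟩
      rcases g with u | d
      · by_cases htu : t ≤ u
        · have h1 : {z | mem0 (Sum.inl u) z} ∈ f := by
            by_contra hcon
            have h2 := Ultrafilter.compl_mem_iff_notMem.2 hcon
            apply codes_not_mem f hA (AA_mono htu)
            filter_upwards [ht, h2] with z hz1 hz2
            rcases KK_cases z with ⟨s, rfl⟩ | ⟨d, rfl⟩ | rfl
            · have : s ≤ t := hz1
              exact absurd (show mem0 (Sum.inl u) (kn s) from this.trans htu) hz2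
            · exact ⟨d, ⟨hz1, hz2⟩, rfl⟩
            · exact absurd hz1 (mem0_ki _)
          filter_upwards [h1] with y hy
          exact ⟨fun _ => htu, fun _ => hy⟩
        · have h1 : {z | mem0 (Sum.inl u) z} ∉ f := by
            intro hu
            obtain ⟨v, hv1, hv2, hv3, hv4⟩ := meet_glb t u
            have hvt : v < t := lt_of_le_of_ne hv1 fun h => htu (h ▸ hv2)
            apply hmin v _ hvt
            by_contra hcon
            have h2 := Ultrafilter.compl_mem_iff_notMem.2 hcon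
            apply codes_not_mem f hA hv4
            filter_upwards [ht, hu, h2] with z hz1 hz2 hz3
            rcases KK_cases z with ⟨s, rfl⟩ | ⟨d, rfl⟩ | rfl
            · exact absurd (show mem0 (Sum.inl v) (kn s) from hv3 s hz1 hz2) hz3
            · exact ⟨d, ⟨⟨hz1, hz2⟩, hz3⟩, rfl⟩
            · exact absurd hz1 (mem0_ki _)
          have h2 := Ultrafilter.compl_mem_iff_notMem.2 h1
          filter_upwards [h2] with y hy
          exact ⟨fun h => absurd h hy, fun h => absurd h htu⟩
      · have h2 := Ultrafilter.compl_mem_iff_notMem.2 (hA d)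
        filter_upwards [h2] with y hy
        exact ⟨fun h => absurd h hy, fun h => absurd h (mem0_kn' d t)⟩
    · push Not at hB
      refine ⟨ki, Set.mem_univ _, le_nhds_K _ _ fun g => ?_⟩
      have h1 : {z | mem0 g z} ∉ f := by
        rcases g with u | d
        · exact hB u
        · exact hA d
      have h2 := Ultrafilter.compl_mem_iff_notMem.2 h1
      filter_upwards [h2] with y hy
      exact ⟨fun h => absurd h hy, fun h => absurd h (mem0_ki _)⟩

theorem isOpen_mem0 (g : Node ⊕ Dt) : IsOpen {z : KK | mem0 g z} := by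
  classical
  have h1 : {z : KK | mem0 g z} = PhiK ⁻¹' {q | q g = true} := by
    ext z
    simp only [Set.mem_ofPred_eq, Set.mem_preimage, PhiK, decide_eq_true_eq]
  rw [h1]
  apply IsOpen.preimage PhiK_cont
  exact (isOpen_discrete ({true} : Set Bool)).preimage
    (continuous_apply (A := fun _ : Node ⊕ Dt => Bool) g)

theorem isClosed_mem0 (g : Node ⊕ Dt) : IsClosed {z : KK | mem0 g z} := by
  classical
  have h1 : {z : KK | mem0 g z} = PhiK ⁻¹' {q | q g = true} := by
    ext z
    simp only [Set.mem_ofPred_eq, Set.mem_preimage, PhiK, decide_eq_true_eq]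
  rw [h1]
  apply IsClosed.preimage PhiK_cont
  exact (isClosed_discrete ({true} : Set Bool)).preimage
    (continuous_apply (A := fun _ : Node ⊕ Dt => Bool) g)

theorem scatteredK (S : Set KK) (hS : S.Nonempty) :
    ∃ x ∈ S, ∃ U : Set KK, IsOpen U ∧ U ∩ S = {x} := by
  by_cases hA : ∃ d, kc d ∈ S
  · obtain ⟨d, hd⟩ := hA
    refine ⟨kc d, hd, _, isOpen_mem0 (Sum.inr d), ?_⟩
    ext z
    constructor
    · rintro ⟨h1, -⟩; exact mem0_inr h1
    · rintro rfl; exact ⟨rfl, hd⟩
  · push Not at hA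
    by_cases hB : ∃ t, kn t ∈ S
    · obtain ⟨t, ht, hmin⟩ := WellFounded.has_min (wellFounded_lt (α := Node)) {t | kn t ∈ S} hB
      refine ⟨kn t, ht, _, isOpen_mem0 (Sum.inl t), ?_⟩
      ext z
      constructor
      · rintro ⟨h1, h2⟩
        rcases KK_cases z with ⟨s, rfl⟩ | ⟨d, rfl⟩ | rfl
        · have h3 : s ≤ t := h1
          rcases h3.eq_or_lt with h4 | h4
          · rw [h4]; exact Set.mem_singleton _
          · exact absurd h4 (hmin s h2)
        · exact absurd h2 (hA d)
        · exact absurd (show mem0 (Sum.inl t) ki from h1) (mem0_ki _)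
      · rintro rfl; exact ⟨le_refl t, ht⟩
    · push Not at hB
      have hall : ∀ z ∈ S, z = ki := by
        intro z hz
        rcases KK_cases z with ⟨s, rfl⟩ | ⟨d, rfl⟩ | rfl
        · exact absurd hz (hB s)
        · exact absurd hz (hA d)
        · rfl
      obtain ⟨z, hz⟩ := hS
      refine ⟨z, hz, Set.univ, isOpen_univ, ?_⟩
      ext w
      constructor
      · rintro ⟨-, hw⟩; rw [hall w hw, hall z hz]; exact Set.mem_singleton _
      · rintro rfl; exact ⟨Set.mem_univ _, hz⟩

theorem dense_codes (t : Node) : kn t ∈ closure (Set.range kc) := by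
  classical
  rw [mem_closure_iff]
  intro o ho hto
  obtain ⟨q, hq, rfl⟩ := isOpen_induced_iff.1 ho
  obtain ⟨I, u, hu, hI⟩ := isOpen_pi_iff.1 hq (PhiK (kn t)) hto
  obtain ⟨d, hd1, hd2⟩ := dense_node (I.toLeft) t ((I.toRight : Finset Dt) : Set Dt)
    (Finset.finite_toSet _)
  refine ⟨kc d, ?_, ⟨d, rfl⟩⟩
  apply hI
  intro i hi
  have h1 : PhiK (kc d) i = PhiK (kn t) i := by
    rw [PhiK_eq]
    rcases i with v | e
    · rw [mem0_kn, mem0_kc]
      exact hd2 v (Finset.mem_toLeft.2 hi)
    · rw [mem0_kc']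
      constructor
      · rintro rfl
        exact absurd (Finset.mem_coe.2 (Finset.mem_toRight.2 hi)) hd1
      · intro h; exact absurd h (mem0_kn' e t)
  rw [h1]
  exact (hu i hi).2

/-- extension of an element to the compact space -/
noncomputable def extK (x : Y) : KK → ℝ
  | none => 0
  | some w => eP w x

theorem extK_add (x y : Y) (z : KK) : extK (x + y) z = extK x z + extK y z := by
  rcases z with _ | w
  · exact (add_zero _).symm
  · exact eP_add w x y

theorem extK_smul (c : ℝ) (x : Y) (z : KK) : extK (c • x) z = c * extK x z := by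
  rcases z with _ | w
  · exact (mul_zero _).symm
  · exact eP_smul w c x

theorem ind_cont (g : Node ⊕ Dt) [DecidablePred (mem0 g)] :
    Continuous (fun z : KK => if mem0 g z then (1 : ℝ) else 0) := by
  have h1 : IsClopen {z : KK | mem0 g z} := ⟨isClosed_mem0 g, isOpen_mem0 g⟩
  apply continuous_const.if _ continuous_const
  intro a ha
  rw [h1.frontier_eq] at ha
  exact absurd ha (Set.notMem_empty _)

theorem extK_cont_span {w : Y} (hw : w ∈ Submodule.span ℝ genYY) : Continuous (extK w) := by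
  classical
  induction hw using Submodule.span_induction with
  | mem x hx =>
    rcases hx with ⟨t, rfl⟩ | ⟨d, rfl⟩
    · convert ind_cont (Sum.inl t) using 1
      funext z
      rcases KK_cases z with ⟨s, rfl⟩ | ⟨d, rfl⟩ | rfl
      · show eP (.nd s) (chiT t) = _
        rw [eP_nd_chiT]; rfl
      · show eP (.ct d) (chiT t) = _
        rw [eP_ct_chiT]; rfl
      · rw [if_neg (mem0_ki _)]; rfl
    · convert ind_cont (Sum.inr d) using 1
      funext z
      rcases KK_cases z with ⟨s, rfl⟩ | ⟨d', rfl⟩ | rfl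
      · rw [if_neg (mem0_kn' d s)]; rfl
      · show eP (.ct d') (eD d) = _
        rw [eP_ct_eD]
        by_cases h : d' = d
        · rw [if_pos h, if_pos ((mem0_kc' d d').2 h)]
        · rw [if_neg h, if_neg (fun h' => h ((mem0_kc' d d').1 h'))]
      · rw [if_neg (mem0_ki _)]; rfl
  | zero =>
    have : extK (0 : Y) = fun _ => 0 := by
      funext z
      have := extK_smul 0 0 z
      rwa [zero_smul, zero_mul] at this
    rw [this]; exact continuous_const
  | add x y _ _ h1 h2 =>
    have : extK (x + y) = fun z => extK x z + extK y z := funext (extK_add x y)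
    rw [this]; exact h1.add h2
  | smul c x _ h1 =>
    have : extK (c • x) = fun z => c * extK x z := funext (extK_smul c x)
    rw [this]; exact h1.const_mul c

theorem extK_cont (x : Y) : Continuous (extK x) := by
  apply continuous_of_uniform_approx_of_continuous
  intro u hu
  obtain ⟨ε, hε, hεu⟩ := Metric.mem_uniformity_dist.1 hu
  obtain ⟨w, hw, hxw⟩ := approxYY x (half_pos hε)
  refine ⟨extK w, extK_cont_span hw, fun z => hεu ?_⟩
  rw [Real.dist_eq]
  rcases z with _ | q
  · show |(0 : ℝ) - 0| < ε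
    simpa using hε
  · exact (hxw q).trans_lt (half_lt_self hε)

/-- the embedding in the continuous functions -/
noncomputable def JK : Y →L[ℝ] C(KK, ℝ) :=
  LinearMap.mkContinuous
    { toFun := fun x => ⟨extK x, extK_cont x⟩
      map_add' := fun x y => by ext z; exact extK_add x y z
      map_smul' := fun c x => by ext z; exact extK_smul c x z } 1
    (fun x => by
      rw [one_mul]
      refine (ContinuousMap.norm_le _ (norm_nonneg _)).2 fun z => ?_
      rcases z with _ | q
      · show |(0 : ℝ)| ≤ ‖x‖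
        simp
      · exact abs_eP_le q x)

theorem JK_some (x : Y) (q : Pt) : JK x (some q : KK) = eP q x := rfl

theorem norm_JK (x : Y) : ‖JK x‖ = ‖x‖ := by
  apply le_antisymm
  · refine (ContinuousMap.norm_le _ (norm_nonneg _)).2 fun z => ?_
    rcases z with _ | q
    · show |(0 : ℝ)| ≤ ‖x‖
      simp
    · exact abs_eP_le q x
  · apply normY_le (norm_nonneg _)
    intro q
    have := (JK x).norm_coe_le_norm (some q : KK)
    rwa [Real.norm_eq_abs, JK_some] at this

/-- the dense countable set of points -/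
def pk : Option Dt → KK
  | none => ki
  | some d => kc d

theorem zero_of_pk (f : C(KK, ℝ)) (h : ∀ i, f (pk i) = 0) : f = 0 := by
  ext z
  rcases KK_cases z with ⟨t, rfl⟩ | ⟨d, rfl⟩ | rfl
  · have h1 : IsClosed {z : KK | f z = 0} := isClosed_eq f.continuous continuous_const
    have h2 : Set.range kc ⊆ {z : KK | f z = 0} := by
      rintro _ ⟨d, rfl⟩
      exact h (some d)
    exact (h1.closure_subset_iff.2 h2) (dense_codes t)
  · exact h (some d)
  · exact h none

/-- weights -/
noncomputable def wt (d : Option Dt) : ℝ := (1 / 2) ^ (Encodable.encode d)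

theorem wt_pos (d : Option Dt) : 0 < wt d := by unfold wt; positivity

theorem wt_le_one (d : Option Dt) : wt d ≤ 1 := pow_le_one₀ (by norm_num) (by norm_num)

theorem summable_wt : Summable wt :=
  (summable_geometric_of_lt_one (by norm_num : (0 : ℝ) ≤ 1 / 2) (by norm_num)).comp_injective
    Encodable.encode_injective

abbrev HD : Type := lp (fun _ : Option Dt => ℝ) 2

theorem abs_f_le (f : C(KK, ℝ)) (z : KK) : ‖f z‖ ≤ ‖f‖ := f.norm_coe_le_norm z

theorem wt_bound (f : C(KK, ℝ)) (d : Option Dt) : ‖wt d * f (pk d)‖ ^ 2 ≤ ‖f‖ ^ 2 * wt d := by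
  rw [norm_mul, Real.norm_of_nonneg (wt_pos d).le]
  have h1 : wt d * ‖f (pk d)‖ ≤ wt d * ‖f‖ :=
    mul_le_mul_of_nonneg_left (abs_f_le _ _) (wt_pos d).le
  have h2 : (wt d * ‖f (pk d)‖) ^ 2 ≤ (wt d * ‖f‖) ^ 2 :=
    pow_le_pow_left₀ (mul_nonneg (wt_pos d).le (norm_nonneg _)) h1 2
  have h3 := wt_pos d
  have h4 := wt_le_one d
  have h5 : wt d ^ 2 ≤ wt d := by nlinarith
  have h6 := sq_nonneg ‖f‖
  nlinarith

theorem mem_J (f : C(KK, ℝ)) : Memℓp (fun d : Option Dt => wt d * f (pk d)) 2 := by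
  apply memℓp_gen
  simp only [ENNReal.toReal_ofNat, Real.rpow_two]
  exact Summable.of_nonneg_of_le (fun d => by positivity) (fun d => wt_bound f d)
    (summable_wt.mul_left _)

noncomputable def JD : C(KK, ℝ) →ₗ[ℝ] HD where
  toFun f := ⟨fun d => wt d * f (pk d), mem_J f⟩
  map_add' f g := by
    apply lp.ext
    funext d
    show wt d * (f + g) (pk d) = wt d * f (pk d) + wt d * g (pk d)
    rw [ContinuousMap.add_apply]; ring
  map_smul' r f := by
    apply lp.ext
    funext d
    show wt d * (r • f) (pk d) = r * (wt d * f (pk d))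
    rw [ContinuousMap.smul_apply, smul_eq_mul]; ring

theorem JD_apply (f : C(KK, ℝ)) (d : Option Dt) :
    (JD f : ∀ _ : Option Dt, ℝ) d = wt d * f (pk d) := rfl

theorem JD_inj {f : C(KK, ℝ)} (h : JD f = 0) : f = 0 := by
  apply zero_of_pk
  intro d
  have h1 : (JD f : ∀ _ : Option Dt, ℝ) d = 0 := by rw [h]; rfl
  rw [JD_apply] at h1
  rcases mul_eq_zero.1 h1 with h2 | h2
  · exact absurd h2 (wt_pos d).ne'
  · exact h2

theorem norm_JD_le : ∃ K : ℝ, 0 < K ∧ ∀ f : C(KK, ℝ), ‖JD f‖ ≤ K * ‖f‖ := by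
  set T : ℝ := ∑' d, wt d with hT
  have hT0 : 0 ≤ T := tsum_nonneg fun d => (wt_pos d).le
  refine ⟨1 + T, by linarith, fun f => ?_⟩
  apply lp.norm_le_of_forall_sum_le (by norm_num) (by positivity)
  intro s
  simp only [ENNReal.toReal_ofNat, Real.rpow_two]
  have h1 : ∀ d ∈ s, ‖(JD f : ∀ _ : Option Dt, ℝ) d‖ ^ 2 ≤ ‖f‖ ^ 2 * wt d := by
    intro d _
    rw [JD_apply]
    exact wt_bound f d
  refine (Finset.sum_le_sum h1).trans ?_
  rw [← Finset.mul_sum]
  have h2 : ∑ d ∈ s, wt d ≤ T := summable_wt.sum_le_tsum s fun d _ => (wt_pos d).le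
  have h3 := sq_nonneg ‖f‖
  have h4 : ((1 + T) * ‖f‖) ^ 2 = ‖f‖ ^ 2 * (1 + T) ^ 2 := by ring
  rw [h4]
  apply mul_le_mul_of_nonneg_left _ h3
  nlinarith

/-- the strictly convex norm -/
noncomputable def rotK (f : C(KK, ℝ)) : ℝ := ‖f‖ + ‖JD f‖

theorem rotK_add (f g : C(KK, ℝ)) : rotK (f + g) ≤ rotK f + rotK g := by
  unfold rotK
  rw [map_add]
  have h1 := norm_add_le f g
  have h2 := norm_add_le (JD f) (JD g)
  linarith

theorem rotK_smul (r : ℝ) (f : C(KK, ℝ)) : rotK (r • f) = |r| * rotK f := by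
  unfold rotK
  rw [map_smul, norm_smul, norm_smul, Real.norm_eq_abs]; ring

theorem rotK_equiv : ∃ c C : ℝ, 0 < c ∧ 0 < C ∧ ∀ f : C(KK, ℝ), c * ‖f‖ ≤ rotK f ∧
    rotK f ≤ C * ‖f‖ := by
  obtain ⟨K, hK, h⟩ := norm_JD_le
  refine ⟨1, 1 + K, one_pos, by linarith, fun f => ⟨?_, ?_⟩⟩
  · unfold rotK
    have := norm_nonneg (JD f)
    linarith
  · unfold rotK
    have := h f
    linarith

theorem rotK_strict (x y : C(KK, ℝ)) (hx : rotK x = 1) (hy : rotK y = 1) (hne : x ≠ y) :
    rotK (x + y) < 2 := by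
  have hx' := hx
  have hy' := hy
  unfold rotK at hx' hy' ⊢
  have h1 := norm_add_le x y
  have h2 : ‖JD (x + y)‖ ≤ ‖JD x‖ + ‖JD y‖ := by rw [map_add]; exact norm_add_le _ _
  rcases h2.eq_or_lt with h3 | h3
  · exfalso
    rw [map_add] at h3
    have h4 : SameRay ℝ (JD x) (JD y) := sameRay_iff_norm_add.2 h3
    rcases h4 with h5 | h5 | ⟨r1, r2, hr1, hr2, h5⟩
    · have := JD_inj h5
      rw [this] at hx'
      simp at hx'
    · have := JD_inj h5
      rw [this] at hy'
      simp at hy'
    · have h6 : r1 • x = r2 • y := by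
        rw [← sub_eq_zero]
        apply JD_inj
        rw [map_sub, map_smul, map_smul, h5, sub_self]
      have h7 : r1 = r2 := by
        have e1 : rotK (r1 • x) = r1 := by
          rw [rotK_smul, hx, mul_one, abs_of_pos hr1]
        have e2 : rotK (r2 • y) = r2 := by
          rw [rotK_smul, hy, mul_one, abs_of_pos hr2]
        rw [← e1, ← e2, h6]
      rw [h7] at h6
      exact hne (smul_right_injective _ hr2.ne' h6)
  · linarith

end Pool.Agent.Helper957.TB.Tree
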