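import Mathlib

set_option autoImplicit false

namespace Pool.Agent.Helper957.TB.Tree

open Cardinal Ordinal Set

/-- The well-ordered set of type `ω₁`. -/
abbrev W : Type := (Cardinal.aleph 1).ord.ToType

instance : NoMaxOrder W := Cardinal.noMaxOrder (Cardinal.aleph0_le_aleph 1)

instance : Nonempty W := by
  have : (Cardinal.aleph 1).ord ≠ 0 := by
    simp only [Cardinal.ord_aleph]
    exact (Ordinal.omega_pos 1).ne'
  exact Ordinal.nonempty_toType_iff.2 this

theorem countable_Iio (a : W) : (Set.Iio a).Countable := by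
  have h := Cardinal.mk_Iio_lt (α := W) a (by simp)
  rw [Cardinal.mk_toType, Cardinal.card_ord, Cardinal.lt_aleph_one_iff] at h
  exact Cardinal.le_aleph0_iff_set_countable.1 h

theorem countable_Iic (a : W) : (Set.Iic a).Countable := by
  have : Set.Iic a = Set.Iio a ∪ {a} := by
    ext x; simp [le_iff_lt_or_eq]
  rw [this]
  exact (countable_Iio a).union (Set.countable_singleton a)

theorem uncountable_W : ¬ (Set.univ : Set W).Countable := by
  rw [← Cardinal.le_aleph0_iff_set_countable, ← Cardinal.lt_aleph_one_iff]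
  simp

theorem exists_ub (s : ℕ → W) : ∃ b : W, ∀ n, s n ≤ b := by
  by_contra h
  push Not at h
  apply uncountable_W
  have : (Set.univ : Set W) = ⋃ n, Set.Iio (s n) := by
    ext b
    simp only [Set.mem_univ, Set.mem_iUnion, Set.mem_Iio, true_iff]
    exact h b
  rw [this]
  exact Set.countable_iUnion fun n => countable_Iio _

/-- The nodes of the tree: sequences of natural numbers of countable ordinal length `len`,
written as functions that vanish from `len` on. -/
@[ext]
structure Node where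
  len : W
  val : W → ℕ
  pad : ∀ c, len ≤ c → val c = 0

instance : PartialOrder Node where
  le s t := s.len ≤ t.len ∧ ∀ c, c < s.len → s.val c = t.val c
  le_refl s := ⟨le_rfl, fun _ _ => rfl⟩
  le_trans s t u h1 h2 :=
    ⟨h1.1.trans h2.1, fun c hc => (h1.2 c hc).trans (h2.2 c (hc.trans_le h1.1))⟩
  le_antisymm s t h1 h2 := by
    have hl : s.len = t.len := le_antisymm h1.1 h2.1
    apply Node.ext hl
    funext c
    rcases lt_or_ge c s.len with hc | hc
    · exact h1.2 c hc
    · rw [s.pad c hc, t.pad c (hl ▸ hc)]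

theorem le_def {s t : Node} : s ≤ t ↔ s.len ≤ t.len ∧ ∀ c, c < s.len → s.val c = t.val c :=
  Iff.rfl

theorem le_of_le_of_len {s t u : Node} (hs : s ≤ u) (ht : t ≤ u) (h : s.len ≤ t.len) : s ≤ t :=
  ⟨h, fun c hc => (hs.2 c hc).trans (ht.2 c (hc.trans_le h)).symm⟩

theorem comparable {s t u : Node} (hs : s ≤ u) (ht : t ≤ u) : s ≤ t ∨ t ≤ s := by
  rcases le_total s.len t.len with h | h
  · exact Or.inl (le_of_le_of_len hs ht h)
  · exact Or.inr (le_of_le_of_len ht hs h)

theorem len_lt {s t : Node} (h : s < t) : s.len < t.len := by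
  rcases lt_or_eq_of_le h.le.1 with h1 | h1
  · exact h1
  · exfalso
    apply h.ne
    apply le_antisymm h.le
    exact ⟨h1.ge, fun c hc => (h.le.2 c (h1 ▸ hc)).symm⟩

instance : WellFoundedLT Node :=
  ⟨Subrelation.wf (r := InvImage (· < ·) Node.len) (fun h => len_lt h)
    (InvImage.wf _ wellFounded_lt)⟩

/-- Restriction of a sequence to length `c`. -/
noncomputable def res (t : Node) (c : W) : Node where
  len := c
  val := fun d => if d < c then t.val d else 0
  pad := fun _ hd => if_neg (not_lt.2 hd)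

theorem res_le {t : Node} {c : W} (h : c ≤ t.len) : res t c ≤ t :=
  ⟨h, fun d hd => by simp only [res] at hd ⊢; simp [hd]⟩

theorem eq_res {s t : Node} (h : s ≤ t) : s = res t s.len := by
  refine Node.ext (y := res t s.len) rfl ?_
  funext c
  simp only [res]
  split_ifs with hc
  · exact h.2 c hc
  · exact s.pad c (not_lt.1 hc)

theorem countable_Iic_node (t : Node) : (Set.Iic t).Countable := by
  apply ((countable_Iic t.len).image (res t)).mono
  intro s hs
  exact ⟨s.len, hs.1, (eq_res hs).symm⟩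

/-- Appending one entry. -/
noncomputable def child (t : Node) (n : ℕ) : Node where
  len := Order.succ t.len
  val := fun d => if d = t.len then n else t.val d
  pad := fun d hd => by
    have h1 : t.len < d := (Order.lt_succ t.len).trans_le hd
    rw [if_neg h1.ne', t.pad d h1.le]

theorem lt_child (t : Node) (n : ℕ) : t < child t n := by
  have h1 : t ≤ child t n :=
    ⟨(Order.le_succ t.len), fun c hc => by simp only [child]; rw [if_neg hc.ne]⟩
  refine lt_of_le_of_ne h1 ?_
  intro h
  have := congrArg Node.len h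
  exact (Order.lt_succ t.len).ne this

theorem eq_child {t v : Node} {n : ℕ} (h : v ≤ child t n) (h' : ¬ v ≤ t) : v = child t n := by
  apply le_antisymm h
  apply le_of_le_of_len le_rfl h
  by_contra hlt
  push Not at hlt
  apply h'
  apply le_of_le_of_len h (lt_child t n).le
  exact Order.le_of_lt_succ hlt

theorem child_inj {t v : Node} {n m : ℕ} (h : child t n ≤ v) (h' : child t m ≤ v) : n = m := by
  have h1 := h.2 t.len (Order.lt_succ t.len)
  have h2 := h'.2 t.len (Order.lt_succ t.len)
  simp only [child, if_true] at h1 h2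
  rw [h1, h2]

theorem exists_ub_node (s : ℕ → Node) (hs : ∀ n, s n ≤ s (n + 1)) : ∃ u, ∀ n, s n ≤ u := by
  classical
  have hm : Monotone s := monotone_nat_of_le_succ hs
  obtain ⟨b, hb⟩ := exists_ub (fun n => (s n).len)
  let v : W → ℕ := fun d => if h : ∃ n, d < (s n).len then (s (Nat.find h)).val d else 0
  refine ⟨⟨b, v, ?_⟩, ?_⟩
  · intro c hc
    have : ¬ ∃ n, c < (s n).len := by
      rintro ⟨n, hn⟩
      exact absurd (hn.trans_le (hb n)) (not_lt.2 hc)
    simp only [v, dif_neg this]
  · intro n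
    refine ⟨hb n, fun c hc => ?_⟩
    have h : ∃ n, c < (s n).len := ⟨n, hc⟩
    simp only [v, dif_pos h]
    exact ((hm (Nat.find_min' h hc)).2 c (Nat.find_spec h)).symm

/-- Left continuity of membership along a branch. -/
theorem left_cont (t r : Node) (ht : ∃ s, s < t) :
    ∃ s, s < t ∧ ∀ u, s < u → u ≤ t → (u ≤ r ↔ t ≤ r) := by
  by_cases htr : t ≤ r
  · obtain ⟨s, hs⟩ := ht
    exact ⟨s, hs, fun u _ hu => ⟨fun _ => htr, fun _ => hu.trans htr⟩⟩
  · by_cases hc : ∃ c, c < t.len ∧ t.val c ≠ r.val c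
    · obtain ⟨c, hc1, hc2⟩ := hc
      have hle : res t c ≤ t := res_le hc1.le
      refine ⟨res t c, lt_of_le_of_ne hle ?_, ?_⟩
      · intro h
        have := congrArg Node.len h
        exact hc1.ne this
      · intro u hu1 hu2
        refine ⟨fun hur => ?_, fun h => absurd h htr⟩
        exfalso
        have hl : c < u.len := len_lt hu1
        exact hc2 ((hu2.2 c hl).symm.trans (hur.2 c hl))
    · push Not at hc
      have hlen : r.len < t.len := by
        by_contra h
        exact htr ⟨not_lt.1 h, hc⟩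
      have hle : res t r.len ≤ t := res_le hlen.le
      refine ⟨res t r.len, lt_of_le_of_ne hle ?_, ?_⟩
      · intro h
        have := congrArg Node.len h
        exact hlen.ne this
      · intro u hu1 hu2
        refine ⟨fun hur => ?_, fun h => absurd h htr⟩
        exfalso
        have hl : r.len < u.len := len_lt (s := res t r.len) hu1
        exact absurd hur.1 (not_le.2 hl)

/-- The general principle: in a preorder where increasing sequences have upper bounds, a bounded
increasing real function is constant above some point. -/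
theorem mono_principle {Q : Type*} (r : Q → Q → Prop) (hr : ∀ a, r a a)
    (ht : ∀ a b c, r a b → r b c → r a c)
    (hσ : ∀ s : ℕ → Q, (∀ n, r (s n) (s (n + 1))) → ∃ q, ∀ n, r (s n) q)
    (v : Q → ℝ) (M : ℝ) (hv : ∀ a b, r a b → v a ≤ v b) (hM : ∀ a, v a ≤ M) (q0 : Q) :
    ∃ q, r q0 q ∧ ∀ q', r q q' → v q' = v q := by
  classical
  let S : Q → ℝ := fun q => sSup {x | ∃ q', r q q' ∧ x = v q'}
  have hbdd : ∀ q, BddAbove {x | ∃ q', r q q' ∧ x = v q'} := fun q =>
    ⟨M, by rintro x ⟨q', _, rfl⟩; exact hM q'⟩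
  have hne : ∀ q, ({x | ∃ q', r q q' ∧ x = v q'}).Nonempty := fun q => ⟨v q, q, hr q, rfl⟩
  have hS : ∀ q q', r q q' → v q' ≤ S q := fun q q' h => le_csSup (hbdd q) ⟨q', h, rfl⟩
  have hSm : ∀ q q', r q q' → S q' ≤ S q := by
    intro q q' h
    apply csSup_le_csSup (hbdd q) (hne q')
    rintro x ⟨q'', h'', rfl⟩
    exact ⟨q'', ht _ _ _ h h'', rfl⟩
  have hnext : ∀ q, ∃ q', r q q' ∧ S q - v q' ≤ (S q - v q) / 2 := by
    intro q
    rcases eq_or_lt_of_le (hS q q (hr q)) with h | h
    · exact ⟨q, hr q, by rw [h]; simp⟩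
    · have hlt : S q - (S q - v q) / 2 < S q := by linarith
      obtain ⟨x, ⟨q', hq', rfl⟩, hx⟩ := exists_lt_of_lt_csSup (hne q) hlt
      exact ⟨q', hq', by linarith⟩
  choose nxt hn1 hn2 using hnext
  let s : ℕ → Q := fun n => Nat.rec q0 (fun _ q => nxt q) n
  have hs0 : s 0 = q0 := rfl
  have hs1 : ∀ n, s (n + 1) = nxt (s n) := fun n => rfl
  obtain ⟨q, hq⟩ := hσ s (fun n => by rw [hs1]; exact hn1 _)
  refine ⟨q, hs0 ▸ hq 0, ?_⟩
  have hd : ∀ n, S (s n) - v (s n) ≤ (S q0 - v q0) * (1 / 2) ^ n := by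
    intro n
    induction n with
    | zero => simp [hs0]
    | succ n ih =>
      have h1 := hn2 (s n)
      have h2 := hSm (s n) (s (n + 1)) (by rw [hs1]; exact hn1 _)
      rw [hs1] at h2 ⊢
      rw [pow_succ]
      linarith
  intro q' hq'
  apply le_antisymm _ (hv _ _ hq')
  have hb : ∀ n, v q' - v q ≤ (S q0 - v q0) * (1 / 2) ^ n := by
    intro n
    have h1 : v q' ≤ S (s n) := hS _ _ (ht _ _ _ (hq n) hq')
    have h2 := hv _ _ (hq n)
    have h3 := hd n
    linarith
  have hlim : Filter.Tendsto (fun n : ℕ => (S q0 - v q0) * (1 / 2 : ℝ) ^ n) Filter.atTop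
      (nhds ((S q0 - v q0) * 0)) :=
    (tendsto_pow_atTop_nhds_zero_of_lt_one (by norm_num) (by norm_num)).const_mul _
  have := ge_of_tendsto' hlim hb
  linarith

/-- Countably many dense upward closed conditions on nodes can be met at once. -/
theorem sigma_principle (D : ℕ → Node → Prop) (hup : ∀ n s t, s ≤ t → D n s → D n t)
    (s0 : Node) (hd : ∀ n s, s0 ≤ s → ∃ t, s ≤ t ∧ D n t) : ∃ t, s0 ≤ t ∧ ∀ n, D n t := by
  classical
  have hnext : ∀ (n : ℕ) (s : {s : Node // s0 ≤ s}), ∃ t : {s : Node // s0 ≤ s},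
      s.1 ≤ t.1 ∧ D n t.1 := by
    intro n s
    obtain ⟨t, h1, h2⟩ := hd n s.1 s.2
    exact ⟨⟨t, s.2.trans h1⟩, h1, h2⟩
  choose nxt hn1 hn2 using hnext
  let s : ℕ → {s : Node // s0 ≤ s} := fun n => Nat.rec ⟨s0, le_rfl⟩ (fun k q => nxt k q) n
  have hs1 : ∀ n, s (n + 1) = nxt n (s n) := fun n => rfl
  obtain ⟨u, hu⟩ := exists_ub_node (fun n => (s n).1) (fun n => by
    show (s n).1 ≤ (s (n + 1)).1
    rw [hs1]; exact hn1 _ _)
  refine ⟨u, hu 0, fun n => ?_⟩
  apply hup n _ _ (hu (n + 1))
  show D n (s (n + 1)).1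
  rw [hs1]; exact hn2 _ _

end Pool.Agent.Helper957.TB.Tree
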