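import Pool.Agent.Helper957.TB.Asplund
import Pool.Agent.Helper957.TB.Codes

set_option autoImplicit false

namespace Pool.Agent.Helper957.TB.Tree

open Set Filter Topology BoundedContinuousFunction

/-- Points: nodes of the tree and codes. -/
inductive Pt : Type
  | nd : Node → Pt
  | ct : Dt → Pt

instance : TopologicalSpace Pt := ⊥
instance : DiscreteTopology Pt := ⟨rfl⟩
instance : Nonempty Pt := ⟨Pt.ct (0, ∅)⟩

abbrev BT : Type := BoundedContinuousFunction Pt ℝ

open Classical in
/-- The function attached to a node. -/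
noncomputable def fT (t : Node) : Pt → ℝ
  | .nd s => if s ≤ t then 1 else 0
  | .ct d => if d ∈ AA t then 1 else 0

open Classical in
noncomputable def fD (d : Dt) : Pt → ℝ
  | .nd _ => 0
  | .ct d' => if d' = d then 1 else 0

noncomputable def chiTB (t : Node) : BT :=
  BoundedContinuousFunction.ofNormedAddCommGroupDiscrete (fT t) 1 (by
    intro z; cases z <;> simp only [fT] <;> split_ifs <;> simp)

noncomputable def eDB (d : Dt) : BT :=
  BoundedContinuousFunction.ofNormedAddCommGroupDiscrete (fD d) 1 (by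
    intro z; cases z <;> simp only [fD]
    · simp
    · split_ifs <;> simp)

/-- generators -/
def genT : Set BT := Set.range chiTB ∪ Set.range eDB

noncomputable def YS : Submodule ℝ BT := (Submodule.span ℝ genT).topologicalClosure

/-- The twisted space. -/
def Y : Type := ↥YS

noncomputable instance : NormedAddCommGroup Y := inferInstanceAs (NormedAddCommGroup ↥YS)
noncomputable instance : NormedSpace ℝ Y := inferInstanceAs (NormedSpace ℝ ↥YS)

instance : CompleteSpace Y := by
  have h : IsClosed (YS : Set BT) := Submodule.isClosed_topologicalClosure _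
  exact h.completeSpace_coe

noncomputable def incY : Y →L[ℝ] BT := YS.subtypeL

noncomputable def chiT (t : Node) : Y :=
  ⟨chiTB t, Submodule.le_topologicalClosure _ (Submodule.subset_span (Or.inl ⟨t, rfl⟩))⟩

noncomputable def eD (d : Dt) : Y :=
  ⟨eDB d, Submodule.le_topologicalClosure _ (Submodule.subset_span (Or.inr ⟨d, rfl⟩))⟩

/-- Evaluation at a point. -/
noncomputable def eP (z : Pt) : Y →L[ℝ] ℝ :=
  (BoundedContinuousFunction.evalCLM ℝ z).comp incY

theorem eP_add (z : Pt) (f g : Y) : eP z (f + g) = eP z f + eP z g := map_add _ _ _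
theorem eP_sub (z : Pt) (f g : Y) : eP z (f - g) = eP z f - eP z g := map_sub _ _ _
theorem eP_smul (z : Pt) (c : ℝ) (f : Y) : eP z (c • f) = c * eP z f := map_smul _ _ _
theorem eP_zero (z : Pt) : eP z (0 : Y) = 0 := map_zero _

open Classical in
theorem eP_nd_chiT (s t : Node) : eP (.nd s) (chiT t) = if s ≤ t then (1 : ℝ) else 0 := rfl

open Classical in
theorem eP_ct_chiT (d : Dt) (t : Node) : eP (.ct d) (chiT t) = if d ∈ AA t then (1 : ℝ) else 0 := rfl

theorem eP_nd_eD (s : Node) (d : Dt) : eP (.nd s) (eD d) = 0 := rfl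

open Classical in
theorem eP_ct_eD (d' d : Dt) : eP (.ct d') (eD d) = if d' = d then (1 : ℝ) else 0 := rfl

theorem abs_eP_le (z : Pt) (f : Y) : |eP z f| ≤ ‖f‖ :=
  BoundedContinuousFunction.norm_coe_le_norm (incY f) z

theorem normY_le {f : Y} {C : ℝ} (hC : 0 ≤ C) (h : ∀ z, |eP z f| ≤ C) : ‖f‖ ≤ C :=
  (BoundedContinuousFunction.norm_le hC).2 h

theorem Y_ext {f g : Y} (h : ∀ z, eP z f = eP z g) : f = g := by
  apply Subtype.ext
  ext z
  exact h z

/-- finite data of an element of the span -/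
structure Fin' (g : BT) (F : Finset Node) (E : Finset Dt) : Prop where
  like : ∀ d, d ∉ E → ∀ s, (∀ t ∈ F, d ∈ AA t ↔ s ≤ t) → g (.ct d) = g (.nd s)
  off : ∀ d, d ∉ E → (∀ t ∈ F, d ∉ AA t) → g (.ct d) = 0
  offN : ∀ s, (∀ t ∈ F, ¬ s ≤ t) → g (.nd s) = 0

theorem Fin'.mono {g : BT} {F F' : Finset Node} {E E' : Finset Dt} (h : Fin' g F E) (hF : F ⊆ F')
    (hE : E ⊆ E') : Fin' g F' E' :=
  ⟨fun d hd s hs => h.like d (fun h' => hd (hE h')) s fun t ht => hs t (hF ht),
    fun d hd hs => h.off d (fun h' => hd (hE h')) fun t ht => hs t (hF ht),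
    fun s hs => h.offN s fun t ht => hs t (hF ht)⟩

theorem span_fin' (g : BT) (hg : g ∈ Submodule.span ℝ genT) : ∃ F E, Fin' g F E := by
  classical
  induction hg using Submodule.span_induction with
  | mem x hx =>
    rcases hx with ⟨t, rfl⟩ | ⟨d, rfl⟩
    · refine ⟨{t}, ∅, ?_, ?_, ?_⟩
      · intro d _ s hs
        show (if d ∈ AA t then (1 : ℝ) else 0) = if s ≤ t then (1 : ℝ) else 0
        have h1 := hs t (Finset.mem_singleton_self t)
        by_cases h2 : s ≤ t
        · rw [if_pos h2, if_pos (h1.2 h2)]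
        · rw [if_neg h2, if_neg fun h3 => h2 (h1.1 h3)]
      · intro d _ hs
        show (if d ∈ AA t then (1 : ℝ) else 0) = 0
        rw [if_neg (hs t (Finset.mem_singleton_self t))]
      · intro s hs
        show (if s ≤ t then (1 : ℝ) else 0) = 0
        rw [if_neg (hs t (Finset.mem_singleton_self t))]
    · refine ⟨∅, {d}, ?_, ?_, ?_⟩
      · intro d' hd s _
        show (if d' = d then (1 : ℝ) else 0) = 0
        rw [if_neg fun h => hd (Finset.mem_singleton.2 h)]
      · intro d' hd _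
        show (if d' = d then (1 : ℝ) else 0) = 0
        rw [if_neg fun h => hd (Finset.mem_singleton.2 h)]
      · intro s _; rfl
  | zero => exact ⟨∅, ∅, fun _ _ _ _ => rfl, fun _ _ _ => rfl, fun _ _ => rfl⟩
  | add x y _ _ hx hy =>
    obtain ⟨F1, E1, h1⟩ := hx
    obtain ⟨F2, E2, h2⟩ := hy
    have h1' := h1.mono (Finset.subset_union_left (s₂ := F2)) (Finset.subset_union_left (s₂ := E2))
    have h2' := h2.mono (Finset.subset_union_right (s₁ := F1)) (Finset.subset_union_right (s₁ := E1))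
    refine ⟨F1 ∪ F2, E1 ∪ E2, ?_, ?_, ?_⟩
    · intro d hd s hs
      show x _ + y _ = x _ + y _
      rw [h1'.like d hd s hs, h2'.like d hd s hs]
    · intro d hd hs
      show x _ + y _ = 0
      rw [h1'.off d hd hs, h2'.off d hd hs, add_zero]
    · intro s hs
      show x _ + y _ = 0
      rw [h1'.offN s hs, h2'.offN s hs, add_zero]
  | smul c x _ hx =>
    obtain ⟨F1, E1, h1⟩ := hx
    refine ⟨F1, E1, ?_, ?_, ?_⟩
    · intro d hd s hs
      show c * x _ = c * x _
      rw [h1.like d hd s hs]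
    · intro d hd hs
      show c * x _ = 0
      rw [h1.off d hd hs, mul_zero]
    · intro s hs
      show c * x _ = 0
      rw [h1.offN s hs, mul_zero]

theorem approxY (f : Y) {r : ℝ} (hr : 0 < r) :
    ∃ g ∈ Submodule.span ℝ genT, ∀ z, |eP z f - g z| ≤ r := by
  have hmem : incY f ∈ closure ((Submodule.span ℝ genT : Submodule ℝ BT) : Set BT) := f.2
  obtain ⟨g, hg, hfg⟩ := Metric.mem_closure_iff.1 hmem r hr
  refine ⟨g, hg, fun z => ?_⟩
  rw [dist_eq_norm] at hfg
  exact (BoundedContinuousFunction.norm_coe_le_norm (incY f - g) z).trans hfg.le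

theorem abs_tri {a b c e r : ℝ} (h1 : |a - b| ≤ r) (h2 : |c - e| ≤ r) (h3 : b = e) :
    |a - c| ≤ r + r := by
  have h4 : a - c = (a - b) - (c - e) := by rw [h3]; ring
  rw [h4]
  exact (abs_sub _ _).trans (add_le_add h1 h2)

/-- Simultaneous approximation of two functions at a code by their values at a node. -/
theorem near_node (x y : Y) {r : ℝ} (hr : 0 < r) : ∃ E : Set Dt, E.Finite ∧ ∀ d, d ∉ E →
    (∃ s, |eP (.ct d) x - eP (.nd s) x| ≤ r ∧ |eP (.ct d) y - eP (.nd s) y| ≤ r) ∨
    (|eP (.ct d) x| ≤ r ∧ |eP (.ct d) y| ≤ r) := by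
  classical
  obtain ⟨g, hg, hxg⟩ := approxY x (half_pos hr)
  obtain ⟨g', hg', hyg⟩ := approxY y (half_pos hr)
  obtain ⟨F1, E1, h1⟩ := span_fin' g hg
  obtain ⟨F2, E2, h2⟩ := span_fin' g' hg'
  have h1' := h1.mono (Finset.subset_union_left (s₂ := F2)) (Finset.subset_union_left (s₂ := E2))
  have h2' := h2.mono (Finset.subset_union_right (s₁ := F1)) (Finset.subset_union_right (s₁ := E1))
  obtain ⟨E, hE, h3⟩ := approx_node (F1 ∪ F2)
  refine ⟨E ∪ ((E1 ∪ E2 : Finset Dt) : Set Dt), hE.union (Finset.finite_toSet _), ?_⟩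
  intro d hd
  have hd1 : d ∉ E := fun h => hd (Or.inl h)
  have hd2 : d ∉ E1 ∪ E2 := fun h => hd (Or.inr (Finset.mem_coe.2 h))
  have h2r : r / 2 + r / 2 = r := by ring
  rcases h3 d hd1 with ⟨s, hs⟩ | hs
  · left
    refine ⟨s, ?_, ?_⟩
    · rw [← h2r]
      exact abs_tri (hxg _) (hxg _) (h1'.like d hd2 s hs)
    · rw [← h2r]
      exact abs_tri (hyg _) (hyg _) (h2'.like d hd2 s hs)
  · right
    constructor
    · have := hxg (.ct d)
      rw [h1'.off d hd2 hs, sub_zero] at this
      linarith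
    · have := hyg (.ct d)
      rw [h2'.off d hd2 hs, sub_zero] at this
      linarith

/-- Codes accumulate at nodes, for elements of the space. -/
theorem dense_Y (x : Y) (t : Node) {r : ℝ} (hr : 0 < r) : ∃ d : Dt,
    |eP (.ct d) x - eP (.nd t) x| ≤ r := by
  obtain ⟨g, hg, hxg⟩ := approxY x (half_pos hr)
  obtain ⟨F, E, h1⟩ := span_fin' g hg
  obtain ⟨d, hd1, hd2⟩ := dense_node F t (E : Set Dt) (Finset.finite_toSet _)
  refine ⟨d, ?_⟩
  have h2r : r / 2 + r / 2 = r := by ring
  rw [← h2r]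
  exact abs_tri (hxg _) (hxg _) (h1.like d (fun h => hd1 (Finset.mem_coe.2 h)) t hd2)

theorem Y_inj {x : Y} (h : ∀ d, eP (.ct d) x = 0) : x = 0 := by
  apply Y_ext
  intro z
  rw [eP_zero]
  cases z with
  | ct d => exact h d
  | nd t =>
    by_contra hne
    have hpos : 0 < |eP (.nd t) x| := abs_pos.2 hne
    obtain ⟨d, hd⟩ := dense_Y x t (half_pos hpos)
    rw [h d, zero_sub, abs_neg] at hd
    linarith

theorem countable_suppY (x : Y) : {t | eP (.nd t) x ≠ 0}.Countable := by
  have hsupp : ∀ n : ℕ, ({t | 1 / ((n : ℝ) + 1) < |eP (.nd t) x|}).Countable := by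
    intro n
    obtain ⟨g, hg, hxg⟩ := approxY x (show 0 < 1 / ((n : ℝ) + 1) by positivity)
    obtain ⟨F, E, h1⟩ := span_fin' g hg
    refine Set.Countable.mono (s₂ := ⋃ t ∈ F, Set.Iic t) ?_
      (F.countable_toSet.biUnion fun t _ => countable_Iic_node t)
    intro s hs
    by_contra hcon
    simp only [Set.mem_iUnion, Set.mem_Iic, not_exists] at hcon
    have h2 := h1.offN s hcon
    have h3 := hxg (.nd s)
    rw [h2, sub_zero] at h3
    exact absurd hs (not_lt.2 h3)
  refine (Set.countable_iUnion hsupp).mono ?_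
  intro t ht
  have hpos : 0 < |eP (.nd t) x| := abs_pos.2 ht
  obtain ⟨n, hn⟩ := exists_nat_one_div_lt hpos
  simp only [Set.mem_iUnion]
  exact ⟨n, hn⟩

end Pool.Agent.Helper957.TB.Tree
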