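import Pool.Agent.Helper957.TB.GA

set_option autoImplicit false

namespace Pool.Agent.Helper957.TB.Tree

open Set Filter Topology BoundedContinuousFunction

/-- restriction to the nodes -/
noncomputable def resB : BT →L[ℝ] B :=
  LinearMap.mkContinuous
    { toFun := fun f => BoundedContinuousFunction.ofNormedAddCommGroupDiscrete
        (fun s => f (.nd s)) ‖f‖ (fun s => f.norm_coe_le_norm _)
      map_add' := fun f g => by ext s; rfl
      map_smul' := fun c f => by ext s; rfl } 1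
    (fun f => by
      rw [one_mul]
      exact (BoundedContinuousFunction.norm_le (norm_nonneg _)).2 fun s => f.norm_coe_le_norm _)

theorem resB_apply (f : BT) (s : Node) : resB f s = f (.nd s) := rfl

theorem resB_chiTB (t : Node) : resB (chiTB t) = chiB t := by ext s; rfl
theorem resB_eDB (d : Dt) : resB (eDB d) = 0 := by ext s; rfl

theorem resB_mem (x : Y) : resB (incY x) ∈ XS := by
  have hmem : incY x ∈ closure ((Submodule.span ℝ genT : Submodule ℝ BT) : Set BT) := x.2
  have h1 : resB (incY x) ∈ closure (resB '' ((Submodule.span ℝ genT : Submodule ℝ BT) : Set BT)) :=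
    image_closure_subset_closure_image resB.continuous ⟨incY x, hmem, rfl⟩
  refine closure_mono ?_ h1
  rintro _ ⟨g, hg, rfl⟩
  have hg' : g ∈ Submodule.span ℝ genT := hg
  show resB g ∈ Submodule.span ℝ (Set.range chiB)
  induction hg' using Submodule.span_induction with
  | mem x hx =>
    rcases hx with ⟨t, rfl⟩ | ⟨d, rfl⟩
    · rw [resB_chiTB]; exact Submodule.subset_span ⟨t, rfl⟩
    · rw [resB_eDB]; exact Submodule.zero_mem _
  | zero => rw [map_zero]; exact Submodule.zero_mem _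
  | add x y hx hy h1 h2 => rw [map_add]; exact Submodule.add_mem _ (h1 hx) (h2 hy)
  | smul c x hx h1 => rw [map_smul]; exact Submodule.smul_mem _ _ (h1 hx)

/-- the quotient map -/
noncomputable def qY : Y →L[ℝ] X := (resB.comp incY).codRestrict XS resB_mem

theorem ev_qY (s : Node) (x : Y) : ev s (qY x) = eP (.nd s) x := rfl

/-- closed span of the evaluations -/
noncomputable def DDY : Submodule ℝ (Y →L[ℝ] ℝ) :=
  (Submodule.span ℝ (Set.range eP)).topologicalClosure

theorem DDY_closed : IsClosed (DDY : Set (Y →L[ℝ] ℝ)) := Submodule.isClosed_topologicalClosure _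

theorem eP_mem (z : Pt) : eP z ∈ DDY :=
  Submodule.le_topologicalClosure _ (Submodule.subset_span ⟨z, rfl⟩)

theorem comp_mem (φ : X →L[ℝ] ℝ) : φ.comp qY ∈ DDY := by
  have h : φ ∈ closure ((Submodule.span ℝ (Set.range ev) : Submodule ℝ (X →L[ℝ] ℝ)) :
      Set (X →L[ℝ] ℝ)) := dual_eq φ
  let r : (X →L[ℝ] ℝ) →L[ℝ] (Y →L[ℝ] ℝ) := ContinuousLinearMap.precomp ℝ qY
  have h1 : r φ ∈ closure (r '' ((Submodule.span ℝ (Set.range ev) : Submodule ℝ (X →L[ℝ] ℝ)) :
      Set (X →L[ℝ] ℝ))) := image_closure_subset_closure_image r.continuous ⟨φ, h, rfl⟩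
  refine closure_mono ?_ h1
  rintro _ ⟨z, hz, rfl⟩
  have hz' : z ∈ Submodule.span ℝ (Set.range ev) := hz
  show r z ∈ Submodule.span ℝ (Set.range eP)
  induction hz' using Submodule.span_induction with
  | mem x hx =>
    obtain ⟨t, rfl⟩ := hx
    exact Submodule.subset_span ⟨.nd t, rfl⟩
  | zero => rw [map_zero]; exact Submodule.zero_mem _
  | add x y hx hy h1 h2 => rw [map_add]; exact Submodule.add_mem _ (h1 hx) (h2 hy)
  | smul c x hx h1 => rw [map_smul]; exact Submodule.smul_mem _ _ (h1 hx)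

/-- a functional vanishing on the codes is controlled by the quotient -/
theorem bound_quot (ξ : Y →L[ℝ] ℝ) (h0 : ∀ d, ξ (eD d) = 0) (x : Y) : |ξ x| ≤ ‖ξ‖ * ‖qY x‖ := by
  have key : ∀ δ : ℝ, 0 < δ → |ξ x| ≤ ‖ξ‖ * (‖qY x‖ + δ) := by
    intro δ hδ
    obtain ⟨E, hE, hE'⟩ := near_node x x hδ
    set F := hE.toFinset with hF
    set x' : Y := x - fs F (fun d => eP (.ct d) x) with hx'
    have h1 : ξ x' = ξ x := by
      rw [hx', map_sub]
      have : ξ (fs F fun d => eP (.ct d) x) = 0 := by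
        unfold fs
        rw [map_sum]
        apply Finset.sum_eq_zero
        intro d _
        rw [map_smul, h0, smul_zero]
      rw [this, sub_zero]
    have h2 : ‖x'‖ ≤ ‖qY x‖ + δ := by
      apply normY_le (by positivity)
      intro z
      cases z with
      | nd s =>
        rw [hx', eP_sub, eP_nd_fs, sub_zero, ← ev_qY]
        have := abs_ev_le s (qY x)
        linarith
      | ct d =>
        by_cases hd : d ∈ F
        · rw [hx', eP_sub, eP_ct_fs _ _ hd, sub_self, abs_zero]; positivity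
        · rw [hx', eP_sub, eP_ct_fs_not _ _ hd, sub_zero]
          have hd' : d ∉ E := fun h => hd (by rw [hF, Set.Finite.mem_toFinset]; exact h)
          rcases hE' d hd' with ⟨s, h3, -⟩ | ⟨h3, -⟩
          · have h4 := abs_ev_le s (qY x)
            rw [ev_qY] at h4
            have h5 := abs_sub_abs_le_abs_sub (eP (.ct d) x) (eP (.nd s) x)
            linarith
          · have := norm_nonneg (qY x)
            linarith
    rw [← h1, ← Real.norm_eq_abs]
    exact (ξ.le_opNorm x').trans (mul_le_mul_of_nonneg_left h2 (norm_nonneg _))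
  by_contra hcon
  push Not at hcon
  set g := |ξ x| - ‖ξ‖ * ‖qY x‖ with hg
  have hg0 : 0 < g := by rw [hg]; linarith
  have h1 := key (g / (2 * (‖ξ‖ + 1))) (by positivity)
  have h2 : ‖ξ‖ * (g / (2 * (‖ξ‖ + 1))) ≤ g / 2 := by
    have h3 : ‖ξ‖ * (g / (2 * (‖ξ‖ + 1))) = (g / 2) * (‖ξ‖ / (‖ξ‖ + 1)) := by
      field_simp
    rw [h3]
    have h4 : ‖ξ‖ / (‖ξ‖ + 1) ≤ 1 := (div_le_one (by positivity)).2 (by linarith)
    nlinarith
  rw [mul_add] at h1
  linarith

theorem factor_mem (ξ : Y →L[ℝ] ℝ) (h0 : ∀ d, ξ (eD d) = 0) : ξ ∈ DDY := by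
  classical
  let R : Submodule ℝ X := LinearMap.range qY.toLinearMap
  have hker : ∀ x y : Y, qY x = qY y → ξ x = ξ y := by
    intro x y h
    have h1 := bound_quot ξ h0 (x - y)
    rw [map_sub, map_sub, h, sub_self, norm_zero, mul_zero] at h1
    have h2 := abs_nonneg (ξ x - ξ y)
    have h3 : |ξ x - ξ y| = 0 := le_antisymm h1 h2
    exact sub_eq_zero.1 (abs_eq_zero.1 h3)
  have hch : ∀ f : R, ∃ x : Y, qY x = f := fun f => f.2
  choose g hg using hch
  let φ0 : R →ₗ[ℝ] ℝ :=
    { toFun := fun f => ξ (g f)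
      map_add' := by
        intro f f'
        rw [← map_add]
        apply hker
        rw [map_add, hg, hg, hg]; rfl
      map_smul' := by
        intro c f
        rw [RingHom.id_apply, ← map_smul]
        apply hker
        rw [map_smul, hg, hg]; rfl }
  have hφ0 : ∀ f : R, φ0 f = ξ (g f) := fun f => rfl
  let φ1 : R →L[ℝ] ℝ := φ0.mkContinuous ‖ξ‖ (by
    intro f
    rw [hφ0, Real.norm_eq_abs]
    refine (bound_quot ξ h0 _).trans ?_
    rw [hg]; rfl)
  obtain ⟨φ, hφ, -⟩ := exists_extension_norm_eq R φ1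
  have h1 : ξ = φ.comp qY := by
    ext x
    have h2 : φ ((⟨qY x, ⟨x, rfl⟩⟩ : R) : X) = φ1 ⟨qY x, ⟨x, rfl⟩⟩ := hφ _
    show ξ x = φ (qY x)
    have h3 : φ (qY x) = φ1 ⟨qY x, ⟨x, rfl⟩⟩ := h2
    rw [h3]
    show ξ x = ξ (g ⟨qY x, ⟨x, rfl⟩⟩)
    apply hker
    rw [hg]
  rw [h1]
  exact comp_mem φ

theorem summable_codes (ξ : Y →L[ℝ] ℝ) : Summable fun d => |ξ (eD d)| := by
  classical
  apply summable_of_sum_le (c := ‖ξ‖) (fun _ => abs_nonneg _)
  intro F
  set a : Dt → ℝ := fun d => if 0 ≤ ξ (eD d) then 1 else -1 with ha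
  have h1 : ξ (fs F a) = ∑ d ∈ F, |ξ (eD d)| := by
    unfold fs
    rw [map_sum]
    apply Finset.sum_congr rfl
    intro d _
    rw [map_smul, smul_eq_mul, ha]
    by_cases h : 0 ≤ ξ (eD d)
    · simp only [if_pos h]; rw [one_mul, abs_of_nonneg h]
    · simp only [if_neg h]; rw [abs_of_neg (not_le.1 h)]; ring
  have h2 : ‖fs F a‖ ≤ 1 := by
    apply normY_le zero_le_one
    intro z
    cases z with
    | nd s => rw [eP_nd_fs]; simp
    | ct d =>
      by_cases hd : d ∈ F
      · rw [eP_ct_fs _ _ hd, ha]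
        simp only
        split_ifs <;> simp
      · rw [eP_ct_fs_not _ _ hd]; simp
  rw [← h1]
  have h3 := ξ.le_opNorm (fs F a)
  rw [Real.norm_eq_abs] at h3
  have h4 := norm_nonneg ξ
  have h5 := le_abs_self (ξ (fs F a))
  nlinarith

theorem norm_eP_le (z : Pt) : ‖eP z‖ ≤ 1 := by
  apply ContinuousLinearMap.opNorm_le_bound _ zero_le_one
  intro x
  rw [one_mul]
  exact abs_eP_le z x

theorem dualY (ξ : Y →L[ℝ] ℝ) : ξ ∈ DDY := by
  classical
  have hs : Summable fun d : Dt => (ξ (eD d)) • eP (.ct d) := by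
    apply Summable.of_norm_bounded (summable_codes ξ)
    intro d
    rw [norm_smul, Real.norm_eq_abs]
    have := norm_eP_le (.ct d)
    have h2 := abs_nonneg (ξ (eD d))
    nlinarith
  obtain ⟨θ, hθ⟩ := hs
  have hθmem : θ ∈ DDY := by
    apply DDY_closed.mem_of_tendsto hθ
    filter_upwards with F
    exact DDY.sum_mem fun d _ => DDY.smul_mem _ (eP_mem _)
  have hθe : ∀ d, θ (eD d) = ξ (eD d) := by
    intro d
    have h1 : HasSum (fun d' : Dt => ξ (eD d') * eP (.ct d') (eD d)) (θ (eD d)) := by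
      have h0 := (ContinuousLinearMap.apply ℝ ℝ (eD d)).hasSum hθ
      exact h0
    have hz : ∀ d' : Dt, d' ≠ d → ξ (eD d') * eP (.ct d') (eD d) = 0 := by
      intro d' hd'
      rw [eP_ct_eD, if_neg hd', mul_zero]
    have h4 : ξ (eD d) * eP (.ct d) (eD d) = ξ (eD d) := by
      rw [eP_ct_eD, if_pos rfl, mul_one]
    have h2 := hasSum_single (f := fun d' : Dt => ξ (eD d') * eP (.ct d') (eD d)) d hz
    rw [h4] at h2
    exact h1.unique h2
  have h1 : ξ - θ ∈ DDY := factor_mem _ fun d => by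
    show ξ (eD d) - θ (eD d) = 0
    rw [hθe, sub_self]
  have h2 : ξ = (ξ - θ) + θ := by abel
  rw [h2]
  exact DDY.add_mem h1 hθmem

/-- The twisted space is Asplund. -/
theorem asplundY (Z : Submodule ℝ Y) (hZ : TopologicalSpace.SeparableSpace Z) :
    TopologicalSpace.SeparableSpace (Z →L[ℝ] ℝ) := by
  obtain ⟨D, hDc, hDd⟩ := hZ.exists_countable_dense
  let S : Set Pt := Set.range Pt.ct ∪ ⋃ y ∈ D, Pt.nd '' {t | eP (.nd t) (y : Y) ≠ 0}
  have hS : S.Countable := (Set.countable_range _).union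
    (hDc.biUnion fun y _ => (countable_suppY _).image _)
  let r : (Y →L[ℝ] ℝ) →L[ℝ] (Z →L[ℝ] ℝ) := ContinuousLinearMap.precomp ℝ Z.subtypeL
  have hr : ∀ xi (y : Z), r xi y = xi (y : Y) := fun xi y => rfl
  have hzero : ∀ z, z ∉ S → r (eP z) = 0 := by
    intro z hz
    have h1 : ∀ y ∈ D, r (eP z) y = 0 := by
      intro y hy
      by_contra h
      apply hz
      cases z with
      | ct d => exact Or.inl ⟨d, rfl⟩
      | nd t =>
        right
        exact Set.mem_biUnion hy ⟨t, h, rfl⟩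
    apply ContinuousLinearMap.ext
    have h2 : (⇑(r (eP z)) : Z → ℝ) = fun _ => 0 :=
      Continuous.ext_on hDd (r (eP z)).continuous continuous_const h1
    intro y
    rw [h2]; rfl
  have hsurj : ∀ ze : Z →L[ℝ] ℝ, ∃ xi, r xi = ze := by
    intro ze
    obtain ⟨xi, hxi, -⟩ := exists_extension_norm_eq Z ze
    exact ⟨xi, by ext y; exact hxi y⟩
  let E : Set (Z →L[ℝ] ℝ) := insert 0 ((fun z => r (eP z)) '' S)
  have hE : E.Countable := (hS.image _).insert 0
  have hsep : TopologicalSpace.IsSeparable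
      (closure ((Submodule.span ℝ E : Submodule ℝ (Z →L[ℝ] ℝ)) : Set (Z →L[ℝ] ℝ))) :=
    (hE.isSeparable.span (R := ℝ)).closure
  rw [← TopologicalSpace.isSeparable_univ_iff]
  refine hsep.mono ?_
  intro ze _
  obtain ⟨xi, rfl⟩ := hsurj ze
  have hxi : xi ∈ closure ((Submodule.span ℝ (Set.range eP) : Submodule ℝ (Y →L[ℝ] ℝ)) :
      Set (Y →L[ℝ] ℝ)) := dualY xi
  have h1 : r xi ∈ closure (r '' ((Submodule.span ℝ (Set.range eP) : Submodule ℝ (Y →L[ℝ] ℝ)) :
      Set (Y →L[ℝ] ℝ))) := image_closure_subset_closure_image r.continuous ⟨xi, hxi, rfl⟩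
  refine closure_mono ?_ h1
  rintro _ ⟨z, hz, rfl⟩
  show r z ∈ Submodule.span ℝ E
  have hz' : z ∈ Submodule.span ℝ (Set.range eP) := hz
  induction hz' using Submodule.span_induction with
  | mem x hx =>
    obtain ⟨t, rfl⟩ := hx
    apply Submodule.subset_span
    by_cases ht : t ∈ S
    · exact Or.inr ⟨t, ht, rfl⟩
    · exact Or.inl (hzero t ht)
  | zero => rw [map_zero]; exact Submodule.zero_mem _
  | add x y hx hy h1 h2 => rw [map_add]; exact Submodule.add_mem _ (h1 hx) (h2 hy)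
  | smul c x hx h1 => rw [map_smul]; exact Submodule.smul_mem _ _ (h1 hx)

end Pool.Agent.Helper957.TB.Tree
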